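import Pool.Agent.Run7.h694.BT.L
import Pool.Agent.Run7.h694.TW.B

/-! Box averages along linear sequences, jointly with a further system: closure properties
(helper694). -/

set_option autoImplicit false
set_option linter.unusedSectionVars false

open Filter Topology MeasureTheory ProbabilityTheory Set
open scoped ENNReal symmDiff

noncomputable section

namespace Run7.h694.BT

open Pool.Agent.W761.Gauss (BM BM_of_memLp)
open Pool.Agent.W761.Box (bx bxc orb orb_mp)
open Pool.Agent.TH739.PA (av av_add av_mul av_ofReal Good)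
open Pool.Agent.TH739.PB (box lin orb_lin CJ CJ_closed good_lin good_orb pact pact_mp JC av_box
  BM_prod)
open Run7.h694.TW (lim_approx fac_fun)

section

variable {G Z : Type} [Group G] [MeasurableSpace Z] {k m : ℕ}

/-- convergence for the families in `𝒰`, jointly with the function `f` on the system `(Z, P, σ)` -/
def CF (P : Measure Z) (σ : Fin k → Z → Z) (f : Z → ℝ) (𝒰 : Set (Fin k → G)) {X : Type}
    [MeasurableSpace X] (μ : Measure X) (Φ : G →* Equiv.Perm X) : Prop :=
  ∀ (r : ℕ) (v : Fin r → Fin k → G), Function.Injective v → (∀ s, v s ∈ 𝒰) →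
    ∀ F : Fin r → X → ℂ, (∀ j, BM (F j)) → CJ μ P σ f (fun j n => (Φ (lin (v j) n) : X → X)) F

variable {P : Measure Z} [IsProbabilityMeasure P] {σ : Fin k → Z → Z} {f : Z → ℝ}
  {𝒰 : Set (Fin k → G)}

section maps

variable {T T' : Type} [MeasurableSpace T] [MeasurableSpace T'] {τ : Measure T}
  [IsProbabilityMeasure τ] {ζ : Measure T'} {π : T → T'} {Γ : G →* Equiv.Perm T}
  {Γ' : G →* Equiv.Perm T'}

/-- lifting convergence from a factor -/
theorem CJ_lift (hπ : MeasurePreserving π τ ζ) (hint : ∀ g, ∀ᵐ t ∂τ, π (Γ g t) = Γ' g (π t))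
    {g : Fin m → (Fin k → ℕ) → G} {w : Fin m → T' → ℂ}
    (h : CJ ζ P σ f (fun j n => (Γ' (g j n) : T' → T')) w) :
    CJ τ P σ f (fun j n => (Γ (g j n) : T → T)) (fun j => w j ∘ π) := by
  have : IsProbabilityMeasure ζ := by
    rw [← hπ.map_eq]
    exact Measure.isProbabilityMeasure_map hπ.measurable.aemeasurable
  have h2 : ∀ᵐ t ∂τ, ∀ (n : Fin k → ℕ) (j : Fin m), π (Γ (g j n) t) = Γ' (g j n) (π t) := by
    rw [ae_all_iff]
    intro n
    rw [ae_all_iff]
    intro j
    exact hint (g j n)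
  have hmp : MeasurePreserving (Prod.map π id) (τ.prod P) (ζ.prod P) :=
    hπ.prod (MeasurePreserving.id P)
  filter_upwards [hmp.quasiMeasurePreserving.ae h, Measure.quasiMeasurePreserving_fst.ae h2] with
    p hp1 hp2
  obtain ⟨L, hL⟩ := hp1
  refine ⟨L, hL.congr fun M => ?_⟩
  congr 1
  funext n
  congr 1
  refine Finset.prod_congr rfl fun j _ => ?_
  rw [Function.comp_apply, hp2]
  rfl

/-- factors -/
theorem CF.factor (hπ : MeasurePreserving π τ ζ) (hΓ' : ∀ g, MeasurePreserving (Γ' g) ζ ζ)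
    (hint : ∀ g, ∀ᵐ t ∂τ, π (Γ g t) = Γ' g (π t)) (hσ : ∀ l, MeasurePreserving (σ l) P P)
    (hf : Measurable f) (h : CF P σ f 𝒰 τ Γ) : CF P σ f 𝒰 ζ Γ' := by
  intro r v hv hvU F hF
  have : IsProbabilityMeasure ζ := by
    rw [← hπ.map_eq]
    exact Measure.isProbabilityMeasure_map hπ.measurable.aemeasurable
  have h1 := h r v hv hvU (fun j => F j ∘ π) fun j => by
    obtain ⟨gm, C, hC⟩ := hF j
    exact ⟨gm.comp hπ.measurable, C, fun x => hC _⟩
  have h2 : ∀ᵐ t ∂τ, ∀ (n : Fin k → ℕ) (j : Fin r), π (Γ (lin (v j) n) t) =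
      Γ' (lin (v j) n) (π t) := by
    rw [ae_all_iff]
    intro n
    rw [ae_all_iff]
    intro j
    exact hint (lin (v j) n)
  let 𝒢 : Set (T' × Z) := {p | ∃ L : ℂ, Tendsto (fun M => av (box k M) fun n =>
    (∏ j, F j (Γ' (lin (v j) n) p.1)) * (f (orb k σ n p.2) : ℂ)) atTop (𝓝 L)}
  have hms : MeasurableSet 𝒢 := by
    apply measurableSet_exists_tendsto
    intro M
    unfold Pool.Agent.TH739.PA.av
    refine (Finset.measurable_fun_sum _ fun n _ => Measurable.mul ?_ ?_).const_mul _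
    · exact Finset.measurable_fun_prod _ fun j _ =>
        ((hF j).1.comp (hΓ' _).measurable).comp measurable_fst
    · exact Complex.measurable_ofReal.comp ((hf.comp (orb_mp k σ hσ n).measurable).comp
        measurable_snd)
  have h3 : ∀ᵐ p ∂(τ.prod P), Prod.map π id p ∈ 𝒢 := by
    filter_upwards [h1, Measure.quasiMeasurePreserving_fst.ae h2] with p hp1 hp2
    obtain ⟨L, hL⟩ := hp1
    refine ⟨L, hL.congr fun M => ?_⟩
    congr 1
    funext n
    congr 1
    refine Finset.prod_congr rfl fun j _ => ?_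
    rw [Function.comp_apply, hp2]
    rfl
  have hmp : MeasurePreserving (Prod.map π id) (τ.prod P) (ζ.prod P) :=
    hπ.prod (MeasurePreserving.id P)
  have h4 : ∀ᵐ p ∂(ζ.prod P), p ∈ 𝒢 := by
    rw [← hmp.map_eq]
    exact (ae_map_iff hmp.measurable.aemeasurable hms).mpr h3
  exact h4

/-- multiplicities and constants -/
theorem CF.merge (hΓ : ∀ g, MeasurePreserving (Γ g) τ τ) {u : Fin m → Fin k → G}
    (hu : ∀ j, u j ∈ 𝒰) (w : Fin m → G) (h : CF P σ f 𝒰 τ Γ) {F : Fin m → T → ℂ}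
    (hF : ∀ j, BM (F j)) :
    CJ τ P σ f (fun j n => (Γ (w j * lin (u j) n) : T → T)) F := by
  classical
  let S : Finset (Fin k → G) := Finset.univ.image u
  let e : S ≃ Fin S.card := S.equivFin
  let v : Fin S.card → Fin k → G := fun s => (e.symm s).1
  let c : Fin m → Fin S.card := fun j => e ⟨u j, Finset.mem_image_of_mem u (Finset.mem_univ j)⟩
  have hvc : ∀ j, v (c j) = u j := fun j => by
    show (e.symm (e _)).1 = u j
    rw [Equiv.symm_apply_apply]
  have hv : Function.Injective v := fun s t h =>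
    e.symm.injective (Subtype.ext h)
  have hvs : ∀ s, v s ∈ 𝒰 := by
    intro s
    obtain ⟨j, _, hj⟩ := Finset.mem_image.mp (e.symm s).2
    have h1 : u j = v s := hj
    rw [← h1]
    exact hu j
  let F' : Fin S.card → T → ℂ := fun s z =>
    ∏ j ∈ Finset.univ.filter (fun j => c j = s), F j (Γ (w j) z)
  have hF' : ∀ s, BM (F' s) := fun s => BM_prod _ fun j => by
    obtain ⟨h1, C, hC⟩ := hF j
    exact ⟨h1.comp (hΓ (w j)).measurable, C, fun z => hC _⟩
  have hmain := h _ v hv hvs F' hF'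
  filter_upwards [hmain] with z hz
  obtain ⟨L, hL⟩ := hz
  refine ⟨L, hL.congr fun M => ?_⟩
  congr 1
  funext n
  congr 1
  show ∏ s, F' s (Γ (lin (v s) n) z.1) = _
  rw [← Finset.prod_fiberwise Finset.univ c]
  refine Finset.prod_congr rfl fun s _ => ?_
  refine Finset.prod_congr rfl fun j hj => ?_
  rw [Finset.mem_filter] at hj
  rw [map_mul, Equiv.Perm.mul_apply, ← hj.2, hvc]

end maps

section more

variable {X : Type} [mX : MeasurableSpace X] {μ : Measure X} {Φ : G →* Equiv.Perm X}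

/-- inverse limits -/
theorem CF.limit [IsProbabilityMeasure μ] (hΦ : ∀ g, MeasurePreserving (Φ g) μ μ) {Y : ℕ → Type}
    [mY : ∀ i, MeasurableSpace (Y i)] {ρ : ∀ i, Measure (Y i)} {R : ∀ i, G →* Equiv.Perm (Y i)}
    {π : ∀ i, X → Y i} (hπ : ∀ i, MeasurePreserving (π i) μ (ρ i))
    (hπT : ∀ i g, ∀ᵐ x ∂μ, π i (Φ g x) = R i g (π i x))
    (hmono : ∀ i, (mY i).comap (π i) ≤ (mY (i + 1)).comap (π (i + 1)))
    (hgen : ∀ B, MeasurableSet B → ∀ ε : ℝ, 0 < ε → ∃ (i : ℕ) (D : Set (Y i)),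
      MeasurableSet D ∧ μ.real (B ∆ (π i ⁻¹' D)) ≤ ε)
    {C₀ : ℝ} (hfb : ∀ z, |f z| ≤ C₀)
    (h : ∀ i, CF P σ f 𝒰 (ρ i) (R i)) : CF P σ f 𝒰 μ Φ := by
  classical
  intro r v hv hvU
  set g : Fin r → (Fin k → ℕ) → X → X := fun j n => (Φ (lin (v j) n) : X → X) with hg
  have hgood : ∀ j, Good atTop (box k) (μ.prod P) (fun n p => (g j n p.1, p.2)) := fun j =>
    good_lin (Φ := pact Φ (1 : G →* Equiv.Perm Z))
      (pact_mp (μ := μ) (ν := P) hΦ fun g => MeasurePreserving.id P) (v j)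
  have hmono' : Monotone fun i => (mY i).comap (π i) := monotone_nat_of_le_succ hmono
  have key : ∀ (B : Finset (Fin r)) (F : Fin r → X → ℂ), (∀ j, BM (F j)) →
      (∀ j ∉ B, ∃ i, Measurable[(mY i).comap (π i)] (F j)) → CJ μ P σ f g F := by
    intro B
    induction B using Finset.induction_on with
    | empty =>
      intro F hF h2
      choose i hi using fun j => h2 j (Finset.notMem_empty j)
      set N := ∑ j, i j with hN
      have hiN : ∀ j, i j ≤ N := fun j => Finset.single_le_sum (f := i)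
        (fun _ _ => Nat.zero_le _) (Finset.mem_univ j)
      choose C hC using fun j => (hF j).2
      choose w hw hgw using fun j => fac_fun (φ := π N) (C := C j)
        ((hi j).mono (hmono' (hiN j)) le_rfl) (hC j)
      have h3 := CJ_lift (τ := μ) (P := P) (σ := σ) (f := f) (hπ N) (hπT N)
        (g := fun j n => lin (v j) n) (h N r v hv hvU w hw)
      have e : F = fun j => w j ∘ π N := by
        funext j x
        exact hgw j x
      rw [e]
      exact h3
    | insert a B ha ih =>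
      intro F hF h2
      have hgoal : CJ μ P σ f g (Function.update F a (F a)) := by
        refine CJ_closed hfb (fun j n => hΦ _) hgood hF (hF a) fun ε hε => ?_
        obtain ⟨ham, C, hC⟩ := hF a
        obtain ⟨i, hi⟩ := lim_approx (𝓑 := fun i => (mY i).comap (π i))
          (fun i => (hπ i).measurable.comap_le) hmono' (fun B hB ε hε => by
            obtain ⟨i, D, hD, hle⟩ := hgen B hB ε hε
            exact ⟨i, π i ⁻¹' D, ⟨D, hD, rfl⟩, hle⟩) ham (abs_nonneg C)
          (fun x => (hC x).trans (le_abs_self C)) ε hε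
        obtain ⟨h', hm', hb', hd'⟩ := hi i le_rfl
        have hBM' : BM h' := ⟨hm'.mono (hπ i).measurable.comap_le le_rfl, |C|, hb'⟩
        refine ⟨h', hBM', hd', ih _ (fun j => ?_) fun j hj => ?_⟩
        · by_cases hja : j = a
          · subst hja
            rwa [Function.update_self]
          · rw [Function.update_of_ne hja]
            exact hF j
        · by_cases hja : j = a
          · subst hja
            rw [Function.update_self]
            exact ⟨i, hm'⟩
          · rw [Function.update_of_ne hja]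
            exact h2 j fun hmem => (Finset.mem_insert.mp hmem).elim hja hj
      rwa [Function.update_eq_self] at hgoal
  intro F hF
  exact key Finset.univ F hF fun j hj => absurd (Finset.mem_univ j) hj

/-- mixtures -/
theorem CF.mixture {Ω : Type} [MeasurableSpace Ω] {Q : Measure Ω} {κ : Kernel Ω X}
    [IsProbabilityMeasure μ] [∀ ω, SFinite (κ ω)] (hμ : μ = Q.bind κ)
    (hΦ : ∀ g, Measurable (Φ g)) {N : Set Ω} (hN : Q N = 0)
    (hσ : ∀ l, MeasurePreserving (σ l) P P) (hf : Measurable f)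
    (h : ∀ ω, ω ∉ N → CF P σ f 𝒰 (κ ω) Φ) : CF P σ f 𝒰 μ Φ := by
  intro r v hv hvU F hF
  have hms : MeasurableSet {p : X × Z | ∃ L : ℂ, Tendsto (fun M => av (box k M) fun n =>
      (∏ j, F j (Φ (lin (v j) n) p.1)) * (f (orb k σ n p.2) : ℂ)) atTop (𝓝 L)} := by
    apply measurableSet_exists_tendsto
    intro M
    unfold Pool.Agent.TH739.PA.av
    refine (Finset.measurable_fun_sum _ fun n _ => Measurable.mul ?_ ?_).const_mul _
    · exact Finset.measurable_fun_prod _ fun j _ => ((hF j).1.comp (hΦ _)).comp measurable_fst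
    · exact Complex.measurable_ofReal.comp ((hf.comp (orb_mp k σ hσ n).measurable).comp
        measurable_snd)
  set s := {p : X × Z | ∃ L : ℂ, Tendsto (fun M => av (box k M) fun n =>
      (∏ j, F j (Φ (lin (v j) n) p.1)) * (f (orb k σ n p.2) : ℂ)) atTop (𝓝 L)} with hs
  show ∀ᵐ p ∂(μ.prod P), p ∈ s
  rw [Measure.ae_prod_mem_iff_ae_ae_mem hms]
  have hD : MeasurableSet {x : X | ∀ᵐ z ∂P, (x, z) ∈ s} := by
    have h1 : Measurable fun x => P (Prod.mk x ⁻¹' sᶜ) := measurable_measure_prodMk_left hms.compl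
    exact h1 (measurableSet_singleton 0)
  rw [hμ]
  refine Measure.ae_comp_of_ae_ae hD ?_
  have hNae : ∀ᵐ ω ∂Q, ω ∉ N := by
    rw [ae_iff]
    simpa using hN
  filter_upwards [hNae] with ω hω
  have h2 : ∀ᵐ p ∂((κ ω).prod P), p ∈ s := h ω hω r v hv hvU F hF
  exact (Measure.ae_prod_mem_iff_ae_ae_mem hms).mp h2

end more

/-- Kolmogorov extensions -/
theorem CF.kolmogorov {X : Type} {𝒜 : MeasurableSpace X} [mX : MeasurableSpace X] {μ : Measure X}
    [IsProbabilityMeasure μ] {Φ : G →* Equiv.Perm X} {Y : Type} [mY : MeasurableSpace Y]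
    {ν : Measure Y} {Ψ : G →* Equiv.Perm Y} {π : X → Y} (hπ : MeasurePreserving π μ ν)
    (hint : ∀ g x, π (Φ g x) = Ψ g (π x)) {ℓ : G → ℝ}
    (hK : @Pool.Agent.TH784.KE.KExt X mX G _ μ 𝒜 (mY.comap π) Φ ℓ)
    (hv0 : ∀ u ∈ 𝒰, ∀ l, ℓ (u l) ≠ 0)
    (hv1 : ∀ u ∈ 𝒰, ∀ v ∈ 𝒰, u ≠ v → ∃ l, ℓ (u l) ≠ ℓ (v l))
    (hσ : ∀ l, MeasurePreserving (σ l) P P) (hf : Measurable f) {C₀ : ℝ}
    (hfb : ∀ z, |f z| ≤ C₀) (h : CF P σ f 𝒰 ν Ψ) : CF P σ f 𝒰 μ Φ := by
  intro r v hv hvU F hF
  rcases Nat.eq_zero_or_pos k with hk | hk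
  · subst hk
    refine Eventually.of_forall fun p => ⟨av (box 0 default) fun n =>
      (∏ j, F j (Φ (lin (v j) n) p.1)) * (f (orb 0 σ n p.2) : ℂ), ?_⟩
    refine tendsto_const_nhds.congr fun M => ?_
    rw [Subsingleton.elim M default]
  · have hYX : mY.comap π ≤ mX := hπ.measurable.comap_le
    choose E₀ hE₀ hEY hEc hFE using fun j =>
      Pool.Agent.TH784.KE.exists_cond (μ := μ) (mY := mY.comap π) (mX := mX) hYX
        (f := F j) ⟨(hF j).1, (hF j).2⟩
    choose C hC using fun j => (hE₀ j).2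
    choose w hw hEw using fun j => fac_fun (φ := π) (hEY j) (hC j)
    have h1 := kolm (P := P) hk hK (fun j l => hv0 _ (hvU j) l)
      (fun i j hij => hv1 _ (hvU i) _ (hvU j) (hv.ne hij)) hσ hf hfb
      (F := F) (E := E₀) (fun j => ⟨(hF j).1, (hF j).2⟩) hE₀ hEY hFE
    have h2 := CJ_lift (τ := μ) (P := P) (σ := σ) (f := f) hπ
      (fun g => Eventually.of_forall (hint g)) (g := fun j n => lin (v j) n) (h r v hv hvU w hw)
    filter_upwards [h1, h2] with p hp1 hp2
    obtain ⟨L, hL⟩ := hp2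
    refine ⟨0 + L, (hp1.add hL).congr fun M => ?_⟩
    rw [← av_box, ← av_add]
    congr 1
    funext n
    have e : ∏ j, (w j ∘ π) (Φ (lin (v j) n) p.1) = ∏ j, E₀ j (Φ (lin (v j) n) p.1) :=
      Finset.prod_congr rfl fun j _ => (hEw j _).symm
    rw [e]
    ring

end

end Run7.h694.BT
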