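import Pool.Agent.Run7.h694.BT.A

/-! Box averages: joint and plain convergence, ground systems (helper694). -/

set_option autoImplicit false
set_option linter.unusedSectionVars false

open Filter Topology MeasureTheory ProbabilityTheory Set
open scoped ENNReal symmDiff

noncomputable section

namespace Run7.h694.BT

open Pool.Agent.W761.Gauss (BM BM_of_memLp)
open Pool.Agent.W761.Box (bx bxc orb orb_mp Cv)
open Pool.Agent.TH739.PA (av avr av_add av_mul av_ofReal Good IsPoissonAction)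
open Pool.Agent.TH739.PB (box lin orb_lin CJ CJ_closed good_lin good_orb pact pact_mp JC av_box
  BM_prod JC_poisson JC_disc IsDiscAct IsGaussAct OvS)

section affine

variable {X : Type} [CommGroup X] [TopologicalSpace X] [IsTopologicalGroup X] [CompactSpace X]
  [T2Space X] [MeasurableSpace X] [BorelSpace X] {μ : Measure X} [μ.IsHaarMeasure]
  [IsProbabilityMeasure μ] {G : Type} [Group G] {k r : ℕ} {Φ : G →* Equiv.Perm X}

/-- commuting affine maps of compact abelian groups -/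
theorem affine_lin {v : Fin r → Fin k → G}
    (haff : ∀ j l, ∃ (α : X →ₜ* X) (c : X), ∀ x, Φ (v j l) x = α x * c)
    (hcomm : ∀ i j l l', Commute (Φ (v i l)) (Φ (v j l'))) {F : Fin r → X → ℂ}
    (hF : ∀ j, BM (F j)) : Cv μ (fun j n => (Φ (lin (v j) n) : X → X)) F := by
  classical
  set S : Finset (Equiv.Perm X) := Finset.univ.image fun p : Fin r × Fin k => Φ (v p.1 p.2) with hS
  let H : Subgroup (Equiv.Perm X) := Subgroup.closure (S : Set (Equiv.Perm X))
  have hSc : ∀ x ∈ (S : Set (Equiv.Perm X)), ∀ y ∈ (S : Set (Equiv.Perm X)), x * y = y * x := by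
    intro x hx y hy
    rw [hS, Finset.mem_coe, Finset.mem_image] at hx hy
    obtain ⟨p, _, rfl⟩ := hx
    obtain ⟨q, _, rfl⟩ := hy
    exact hcomm _ _ _ _
  letI : CommGroup H := Subgroup.closureCommGroupOfComm hSc
  have hfg : Group.FG H := Group.closure_finset_fg S
  have hmem : ∀ j l, Φ (v j l) ∈ H := fun j l => Subgroup.subset_closure (by
    rw [hS, Finset.mem_coe, Finset.mem_image]
    exact ⟨(j, l), Finset.mem_univ _, rfl⟩)
  let Ψ : Additive H → Equiv.Perm X := fun a => ((Additive.toMul a : H) : Equiv.Perm X)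
  have hΨ : ∀ a b, Ψ (a + b) = Ψ a * Ψ b := fun a b => rfl
  have hΨ0 : Ψ 0 = 1 := rfl
  have hΨa : ∀ a, Pool.Agent.TH784.AA.IsAff (Ψ a : X → X) := by
    intro a
    have key : ∀ g ∈ H, Pool.Agent.TH784.AA.IsAff ((g : Equiv.Perm X) : X → X) := by
      intro g hg
      refine Subgroup.closure_induction (k := (S : Set (Equiv.Perm X)))
        (p := fun (g : Equiv.Perm X) _ => Pool.Agent.TH784.AA.IsAff (g : X → X)) ?_ ?_ ?_ ?_ hg
      · intro x hx
        rw [hS, Finset.mem_coe, Finset.mem_image] at hx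
        obtain ⟨p, _, rfl⟩ := hx
        exact haff _ _
      · exact Pool.Agent.TH784.AA.IsAff.id
      · intro x y _ _ hx hy
        exact hx.comp hy
      · intro x _ hx
        exact hx.symm
    exact key _ (Additive.toMul a : H).2
  have hmain := Pool.Agent.TH784.AA.conv_bm (μ := μ) hΨ hΨ0 hΨa (fun _ : Fin r => 0)
    (fun (j : Fin r) (l : Fin k) => Additive.ofMul (⟨Φ (v j l), hmem j l⟩ : H))
    (F := F) fun j => ⟨(hF j).1, (hF j).2⟩
  have he : ∀ (j : Fin r) (n : Fin k → ℕ), Ψ (0 + ∑ l, n l •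
      Additive.ofMul (⟨Φ (v j l), hmem j l⟩ : H)) = Φ (lin (v j) n) := by
    intro j n
    rw [zero_add]
    show ((Additive.toMul (∑ l, n l • Additive.ofMul (⟨Φ (v j l), hmem j l⟩ : H)) : H) :
      Equiv.Perm X) = _
    rw [toMul_sum]
    simp only [toMul_nsmul, toMul_ofMul]
    rw [← List.prod_ofFn, lin, map_list_prod]
    have h2 := map_list_prod H.subtype (List.ofFn fun l => (⟨Φ (v j l), hmem j l⟩ : H) ^ n l)
    refine h2.trans ?_
    rw [List.map_ofFn, List.map_ofFn]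
    congr 2
    funext l
    simp only [Function.comp_apply, map_pow]
    rfl
  filter_upwards [hmain] with x hx
  obtain ⟨L, hL⟩ := hx
  refine ⟨L, hL.congr fun N => ?_⟩
  simp only [he]

end affine

section two

variable {G : Type} [Group G] {k : ℕ}

/-- `b = true`: joint convergence; `b = false`: the further system is a point -/
def TF (b : Bool) (𝒰 : Set (Fin k → G)) {X : Type} [MeasurableSpace X] (μ : Measure X)
    (Φ : G →* Equiv.Perm X) : Prop :=
  ∀ (Z : Type) (_ : MeasurableSpace Z) (P : Measure Z) (_ : IsProbabilityMeasure P)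
    (σ : Fin k → Z → Z), (∀ l, MeasurePreserving (σ l) P P) → ∀ f : Z → ℝ, Measurable f →
    (∃ C : ℝ, ∀ z, |f z| ≤ C) → (b = true ∨ Subsingleton Z) → CF P σ f 𝒰 μ Φ

variable {𝒰 : Set (Fin k → G)}

theorem JC_point {m : ℕ} (a : Fin m → (Fin k → ℕ) → Unit → Unit) :
    JC k m (Measure.dirac ()) a := by
  intro Z _ P _ σ hσ f hf hfb F hF
  have h1 := good_orb k hσ f hf hfb
  filter_upwards [Measure.quasiMeasurePreserving_snd.ae h1] with p hp
  obtain ⟨L, hL⟩ := hp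
  refine ⟨(∏ j, F j ()) * (L : ℂ),
    (((Complex.continuous_ofReal.tendsto _).comp hL).const_mul (∏ j, F j ())).congr fun M => ?_⟩
  rw [Function.comp_apply, ← av_ofReal, ← av_mul]

section

variable {X : Type} [MeasurableSpace X] {μ : Measure X} {Φ : G →* Equiv.Perm X}

theorem TF.of_JC (h : ∀ (r : ℕ) (v : Fin r → Fin k → G), Function.Injective v → (∀ s, v s ∈ 𝒰) →
    JC k r μ fun j n => (Φ (lin (v j) n) : X → X)) : TF true 𝒰 μ Φ :=
  fun Z mZ P hP σ hσ f hf hfb _ r v hv hvU F hF => h r v hv hvU Z mZ P hP σ hσ f hf hfb F hF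

theorem TF.jc (h : TF true 𝒰 μ Φ) {r : ℕ} {v : Fin r → Fin k → G} (hv : Function.Injective v)
    (hvU : ∀ s, v s ∈ 𝒰) : JC k r μ fun j n => (Φ (lin (v j) n) : X → X) :=
  fun Z mZ P hP σ hσ f hf hfb F hF => h Z mZ P hP σ hσ f hf hfb (Or.inl rfl) r v hv hvU F hF

theorem TF.forget (h : TF true 𝒰 μ Φ) : TF false 𝒰 μ Φ :=
  fun Z mZ P hP σ hσ f hf hfb _ => h Z mZ P hP σ hσ f hf hfb (Or.inl rfl)

theorem TF.gauss [IsProbabilityMeasure μ] (h : IsGaussAct μ Φ) : TF true 𝒰 μ Φ :=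
  TF.of_JC fun _ v _ _ => h.joint v

theorem TF.disc [IsProbabilityMeasure μ] {D : Type} [MeasurableSpace D] {δ : Measure D}
    [IsProbabilityMeasure δ] {Δ : G →* Equiv.Perm D} (hΔ : IsDiscAct δ Δ)
    (hΦ : ∀ g, MeasurePreserving (Φ g) μ μ) (h : TF true 𝒰 μ Φ) :
    TF true 𝒰 (δ.prod μ) (pact Δ Φ) :=
  TF.of_JC fun _ v hv hvU => JC_disc hΔ hΦ v (h.jc hv hvU)

theorem TF.poisson [IsProbabilityMeasure μ] {Y W : Type} [MeasurableSpace Y] [MeasurableSpace W]
    [Nonempty W] {ν : Measure Y} [IsProbabilityMeasure ν] {κ : Measure W} [SFinite κ]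
    {Θ : G →* Equiv.Perm W} {Ψ : G →* Equiv.Perm Y} (hΦ : ∀ g, MeasurePreserving (Φ g) μ μ)
    (hΨ : IsPoissonAction κ Θ ν Ψ) {ℛ : Set (Set W)}
    (hℛ : ∀ A ∈ ℛ, MeasurableSet A ∧ κ A ≠ ∞)
    (hd : ∀ A, MeasurableSet A → κ A ≠ ∞ → ∀ ε : ℝ, 0 < ε → ∃ B ∈ ℛ, (κ (A ∆ B)).toReal ≤ ε)
    (hs : ∀ u ∈ 𝒰, ∀ v ∈ 𝒰, u ≠ v → ∀ A ∈ ℛ, ∀ B ∈ ℛ, OvS κ Θ u v A B) (h : TF true 𝒰 μ Φ) :
    TF true 𝒰 (μ.prod ν) (pact Φ Ψ) :=
  TF.of_JC fun _ v hv hvU => JC_poisson hΦ hΨ hv (h.jc hv hvU) hℛ hd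
    fun i j hij => hs _ (hvU i) _ (hvU j) (hv.ne hij)

theorem TF.plain [IsProbabilityMeasure μ] (h : ∀ (r : ℕ) (v : Fin r → Fin k → G),
    Function.Injective v → (∀ s, v s ∈ 𝒰) → ∀ F : Fin r → X → ℂ, (∀ j, BM (F j)) →
    Cv μ (fun j n => (Φ (lin (v j) n) : X → X)) F) : TF false 𝒰 μ Φ := by
  intro Z _ P _ σ hσ f hf hfb hZ r v hv hvU F hF
  have hZ' : Subsingleton Z := hZ.resolve_left (by simp)
  filter_upwards [Measure.quasiMeasurePreserving_fst.ae (h r v hv hvU F hF)] with p hp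
  obtain ⟨L, hL⟩ := hp
  refine ⟨(f p.2 : ℂ) * L, (hL.const_mul (f p.2 : ℂ)).congr fun M => ?_⟩
  rw [← av_box, ← av_mul]
  congr 1
  funext n
  rw [Subsingleton.elim (orb k σ n p.2) p.2]
  ring

end

theorem TF.affine {X : Type} [CommGroup X] [TopologicalSpace X] [IsTopologicalGroup X]
    [CompactSpace X] [T2Space X] [MeasurableSpace X] [BorelSpace X] {μ : Measure X}
    [μ.IsHaarMeasure] [IsProbabilityMeasure μ] {Φ : G →* Equiv.Perm X}
    (haff : ∀ u ∈ 𝒰, ∀ l, ∃ (α : X →ₜ* X) (c : X), ∀ x, Φ (u l) x = α x * c)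
    (hcomm : ∀ u ∈ 𝒰, ∀ v ∈ 𝒰, ∀ l l', Commute (Φ (u l)) (Φ (v l'))) : TF false 𝒰 μ Φ :=
  TF.plain fun _ v _ hvU _ hF => affine_lin (fun j l => haff _ (hvU j) l)
    (fun i j l l' => hcomm _ (hvU i) _ (hvU j) l l') hF

end two

end Run7.h694.BT
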