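import Pool.Agent.Run7.h694.BT.B

/-! Essentially bounded functions (helper694). -/

set_option autoImplicit false
set_option linter.unusedSectionVars false

open Filter Topology MeasureTheory ProbabilityTheory Set
open scoped ENNReal symmDiff

noncomputable section

namespace Run7.h694.BT

open Pool.Agent.W761.Gauss (BM BM_of_memLp)
open Pool.Agent.W761.Box (bx bxc orb orb_mp Cv)
open Pool.Agent.TH739.PA (av avr av_add av_mul av_ofReal)
open Pool.Agent.TH739.PB (box lin orb_lin CJ av_box)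

variable {G : Type} [Group G] {k m : ℕ} {𝒰 : Set (Fin k → G)} {X : Type} [MeasurableSpace X]
  {μ : Measure X} [IsProbabilityMeasure μ] {Φ : G →* Equiv.Perm X} {b : Bool}

/-- from bounded measurable to essentially bounded functions -/
theorem TF.final (hΦ : ∀ g, MeasurePreserving (Φ g) μ μ) (H : TF b 𝒰 μ Φ) {u : Fin m → Fin k → G}
    (hu : ∀ j, u j ∈ 𝒰) (w : Fin m → G) {f : Fin m → X → ℂ} (hf : ∀ j, MemLp (f j) ∞ μ)
    {Ω : Type} [mΩ : MeasurableSpace Ω] {P : Measure Ω} [hP : IsProbabilityMeasure P]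
    (hb : b = true ∨ Subsingleton Ω) {V : Fin k → Ω → Ω}
    (hV : ∀ l, MeasurePreserving (V l) P P) {h : Ω → ℂ} (hh : MemLp h ∞ P) :
    ∀ᵐ p ∂(μ.prod P), ∃ L : ℂ, Tendsto (fun M : Fin k → ℕ => (∏ l, (M l : ℂ))⁻¹ *
      ∑ n ∈ Fintype.piFinset (fun l => Finset.range (M l)),
        (∏ j, f j (Φ (w j * lin (u j) n) p.1)) * h (orb k V n p.2)) atTop (𝓝 L) := by
  choose F hF hfF using fun j => BM_of_memLp (hf j)
  obtain ⟨h', ⟨hm', C', hC'⟩, hhh⟩ := BM_of_memLp hh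
  have h1 := (H Ω mΩ P hP V hV (fun ω => (h' ω).re) (Complex.measurable_re.comp hm')
    ⟨C', fun ω => (Complex.abs_re_le_norm _).trans (hC' ω)⟩ hb).merge hΦ hu w hF
  have h2 := (H Ω mΩ P hP V hV (fun ω => (h' ω).im) (Complex.measurable_im.comp hm')
    ⟨C', fun ω => (Complex.abs_im_le_norm _).trans (hC' ω)⟩ hb).merge hΦ hu w hF
  have h5 : ∀ᵐ z ∂μ, ∀ (n : Fin k → ℕ) (j : Fin m), f j (Φ (w j * lin (u j) n) z) =
      F j (Φ (w j * lin (u j) n) z) := by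
    rw [ae_all_iff]
    intro n
    rw [ae_all_iff]
    intro j
    exact (hΦ _).quasiMeasurePreserving.ae (hfF j)
  have h6 : ∀ᵐ ω ∂P, ∀ n : Fin k → ℕ, h (orb k V n ω) = h' (orb k V n ω) := by
    rw [ae_all_iff]
    intro n
    exact (orb_mp k V hV n).quasiMeasurePreserving.ae hhh
  filter_upwards [h1, h2, Measure.quasiMeasurePreserving_fst.ae h5,
    Measure.quasiMeasurePreserving_snd.ae h6] with p hp1 hp2 hp5 hp6
  obtain ⟨L₁, hL₁⟩ := hp1
  obtain ⟨L₂, hL₂⟩ := hp2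
  refine ⟨L₁ + Complex.I * L₂, (hL₁.add (hL₂.const_mul Complex.I)).congr fun M => ?_⟩
  rw [← av_mul, ← av_add, av_box]
  show bxc k M _ = bxc k M _
  congr 1
  funext n
  rw [hp6]
  have e1 : ∏ j, f j (Φ (w j * lin (u j) n) p.1) = ∏ j, F j (Φ (w j * lin (u j) n) p.1) :=
    Finset.prod_congr rfl fun j _ => hp5 n j
  rw [e1]
  nth_rewrite 3 [← Complex.re_add_im (h' (orb k V n p.2))]
  ring

/-- the plain averages -/
theorem TF.final_plain (hΦ : ∀ g, MeasurePreserving (Φ g) μ μ) (H : TF b 𝒰 μ Φ)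
    {u : Fin m → Fin k → G} (hu : ∀ j, u j ∈ 𝒰) (w : Fin m → G) {f : Fin m → X → ℂ}
    (hf : ∀ j, MemLp (f j) ∞ μ) :
    ∀ᵐ x ∂μ, ∃ L : ℂ, Tendsto (fun M : Fin k → ℕ => (∏ l, (M l : ℂ))⁻¹ *
      ∑ n ∈ Fintype.piFinset (fun l => Finset.range (M l)),
        ∏ j, f j (Φ (w j * lin (u j) n) x)) atTop (𝓝 L) := by
  have h1 := H.final hΦ hu w hf (Ω := Unit) (P := Measure.dirac ()) (Or.inr inferInstance)
    (V := fun _ => id) (fun _ => MeasurePreserving.id _) (h := fun _ => 1) (memLp_top_const 1)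
  filter_upwards [Measure.ae_ae_of_ae_prod h1] with x hx
  obtain ⟨z, L, hL⟩ := hx.exists
  refine ⟨L, hL.congr fun M => ?_⟩
  simp only [mul_one]

/-- conversely -/
theorem TF.of_final_plain (h : ∀ (m : ℕ) (u : Fin m → Fin k → G), (∀ j, u j ∈ 𝒰) →
    ∀ f : Fin m → X → ℂ, (∀ j, MemLp (f j) ∞ μ) →
    ∀ᵐ x ∂μ, ∃ L : ℂ, Tendsto (fun M : Fin k → ℕ => (∏ l, (M l : ℂ))⁻¹ *
      ∑ n ∈ Fintype.piFinset (fun l => Finset.range (M l)),
        ∏ j, f j (Φ (lin (u j) n) x)) atTop (𝓝 L)) : TF false 𝒰 μ Φ := by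
  refine TF.plain fun r v _ hvU F hF => ?_
  refine h r v hvU F fun j => ?_
  obtain ⟨hm, C, hC⟩ := hF j
  exact memLp_top_of_bound hm.aestronglyMeasurable C (Eventually.of_forall hC)

/-- conversely -/
theorem TF.of_final (h : ∀ (m : ℕ) (u : Fin m → Fin k → G), (∀ j, u j ∈ 𝒰) →
    ∀ f : Fin m → X → ℂ, (∀ j, MemLp (f j) ∞ μ) →
    ∀ (Ω : Type) [MeasurableSpace Ω] (P : Measure Ω) [IsProbabilityMeasure P]
      (V : Fin k → Ω → Ω), (∀ l, MeasurePreserving (V l) P P) →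
      ∀ g : Ω → ℂ, MemLp g ∞ P → ∀ᵐ p ∂(μ.prod P), ∃ L : ℂ,
      Tendsto (fun M : Fin k → ℕ => (∏ l, (M l : ℂ))⁻¹ *
      ∑ n ∈ Fintype.piFinset (fun l => Finset.range (M l)),
        (∏ j, f j (Φ (lin (u j) n) p.1)) * g (orb k V n p.2)) atTop (𝓝 L)) :
    TF true 𝒰 μ Φ := by
  refine TF.of_JC fun r v _ hvU => ?_
  intro Z _ P _ σ hσ f hf hfb F hF
  obtain ⟨C, hC⟩ := hfb
  have h1 := h r v hvU F (fun j => by
    obtain ⟨hm, C, hC⟩ := hF j
    exact memLp_top_of_bound hm.aestronglyMeasurable C (Eventually.of_forall hC)) Z P σ hσ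
    (fun z => (f z : ℂ)) (memLp_top_of_bound
      (Complex.measurable_ofReal.comp hf).aestronglyMeasurable C (Eventually.of_forall fun z => by
        rw [Complex.norm_real, Real.norm_eq_abs]
        exact hC z))
  filter_upwards [h1] with p hp
  obtain ⟨L, hL⟩ := hp
  refine ⟨L, hL.congr fun M => ?_⟩
  rw [av_box]
  rfl

end Run7.h694.BT
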