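import Pool.Agent.Run7.h694.BT.C
import Pool.Agent.TH739.PA.Exi
import Pool.Agent.W761.Gauss.Main2
import Pool.Agent.H922R3.TA.Skew

/-! One parameter: Poisson extensions of arbitrary systems, Gaussian systems of class two, toral skew
products (helper694). -/

set_option autoImplicit false
set_option linter.unusedSectionVars false

open Filter Topology MeasureTheory ProbabilityTheory Set
open scoped ENNReal symmDiff commutatorElement

noncomputable section

namespace Run7.h694.BT

open Pool.Agent.W761.Gauss (BM BM_of_memLp)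
open Pool.Agent.W761.Box (bx bxc orb orb_mp)
open Pool.Agent.TH739.PA (av avr av_add av_mul av_ofReal Good LP PZ PZ_all bar bar_BM pr
  IsPoissonAction sq mx)
open Pool.Agent.TH739.PB (box mem_box lin orb_lin CJ good_lin pact pact_mp av_box)

section conv

theorem tendsto_one {α : Type*} {g : ℕ → α} {l : Filter α} :
    Tendsto (fun M : Fin 1 → ℕ => g (M 0)) atTop l ↔ Tendsto g atTop l := by
  constructor
  · intro h
    have hN : Tendsto (fun (N : ℕ) (_ : Fin 1) => N) atTop atTop :=
      tendsto_atTop_atTop.2 fun b => ⟨b 0, fun N hN j => by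
        rw [Subsingleton.elim j 0]
        exact hN⟩
    exact h.comp hN
  · intro h
    have hN : Tendsto (fun M : Fin 1 → ℕ => M 0) atTop atTop :=
      tendsto_atTop_atTop.2 fun b => ⟨fun _ => b, fun M hM => hM 0⟩
    exact h.comp hN

theorem sum_box1 {β : Type*} [AddCommMonoid β] (a : (Fin 1 → ℕ) → β) (M : Fin 1 → ℕ) :
    ∑ m ∈ box 1 M, a m = ∑ n ∈ Finset.range (M 0), a (fun _ => n) := by
  refine Finset.sum_nbij' (fun m => m 0) (fun n _ => n) ?_ ?_ ?_ ?_ ?_
  · intro m hm
    rw [mem_box] at hm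
    exact Finset.mem_range.2 (hm 0)
  · intro n hn
    rw [mem_box]
    intro l
    rw [Subsingleton.elim l 0]
    exact Finset.mem_range.1 hn
  · intro m _
    funext j
    rw [Subsingleton.elim j 0]
  · intro n _
    rfl
  · intro m _
    congr 1
    funext j
    rw [Subsingleton.elim j 0]

theorem card_box1 (M : Fin 1 → ℕ) : (box 1 M).card = M 0 := by
  rw [Pool.Agent.TH739.PB.box_card, Fin.prod_univ_one]

theorem av_one (a : (Fin 1 → ℕ) → ℂ) (M : Fin 1 → ℕ) :
    av (box 1 M) a = (M 0 : ℂ)⁻¹ * ∑ n ∈ Finset.range (M 0), a (fun _ => n) := by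
  rw [av, sum_box1, card_box1]

theorem avr_one (a : (Fin 1 → ℕ) → ℝ) (M : Fin 1 → ℕ) :
    avr (box 1 M) a = (M 0 : ℝ)⁻¹ * ∑ n ∈ Finset.range (M 0), a (fun _ => n) := by
  rw [avr, sum_box1, card_box1]

theorem lin_one {G : Type*} [Group G] (u : Fin 1 → G) (n : Fin 1 → ℕ) :
    lin u n = u 0 ^ n 0 := by
  simp [lin]

theorem sum_half {β : Type*} [AddCommMonoid β] (a : ℕ → β) (N : ℕ) :
    ∑ n ∈ Finset.Icc (-(N : ℤ)) (N : ℤ), (if 0 ≤ n then a n.toNat else 0) =
      ∑ n ∈ Finset.range (N + 1), a n := by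
  rw [← Finset.sum_filter]
  refine Finset.sum_nbij' (fun n => n.toNat) (fun n => (n : ℤ)) ?_ ?_ ?_ ?_ ?_
  · intro n hn
    rw [Finset.mem_filter, Finset.mem_Icc] at hn
    rw [Finset.mem_range]
    omega
  · intro n hn
    rw [Finset.mem_range] at hn
    rw [Finset.mem_filter, Finset.mem_Icc]
    omega
  · intro n hn
    rw [Finset.mem_filter] at hn
    exact Int.toNat_of_nonneg hn.2
  · intro n _
    exact Int.toNat_natCast n
  · intro n _
    rfl

/-- from averages over `[-N, N]` of a sequence which vanishes for negative indices -/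
theorem half_lim {S : ℕ → ℝ} (h : Tendsto (fun N : ℕ => ((2 * N + 1 : ℕ) : ℝ)⁻¹ * S (N + 1)) atTop
    (𝓝 0)) : Tendsto (fun N : ℕ => (N : ℝ)⁻¹ * S N) atTop (𝓝 0) := by
  rw [← tendsto_add_atTop_iff_nat 1]
  have hb : Tendsto (fun N : ℕ => 2 * |((2 * N + 1 : ℕ) : ℝ)⁻¹ * S (N + 1)|) atTop (𝓝 0) := by
    have := (h.abs).const_mul 2
    simpa using this
  refine squeeze_zero_norm (fun N => ?_) hb
  rw [Real.norm_eq_abs, abs_mul, abs_mul, abs_inv, abs_inv, Nat.abs_cast, Nat.abs_cast, ← mul_assoc]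
  refine mul_le_mul_of_nonneg_right ?_ (abs_nonneg _)
  rw [← div_eq_mul_inv, inv_eq_one_div, div_le_div_iff₀ (by positivity) (by positivity)]
  push_cast
  linarith

end conv

section lp

/-- one-sided averages of bounded variables with small variances -/
theorem LP_one {q : (Fin 1 → ℕ) × (Fin 1 → ℕ) → ℝ} (hq : ∀ p, 0 ≤ q p)
    (hs : Summable fun p : ℕ × ℕ => q (fun _ => p.1, fun _ => p.2) /
      (1 + max (p.1 : ℝ) (p.2 : ℝ)) ^ 2) : LP atTop (box 1) q := by
  classical
  intro Z _ P _ ξ h1 h2 h3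
  let ξ' : ℤ → Z → ℝ := fun n z => if 0 ≤ n then ξ (fun _ => n.toNat) z else 0
  let q' : ℤ × ℤ → ℝ := fun p => if 0 ≤ p.1 then (if 0 ≤ p.2 then
    q (fun _ => p.1.toNat, fun _ => p.2.toNat) else 0) else 0
  have hq' : ∀ p, 0 ≤ q' p := by
    intro p
    show 0 ≤ if 0 ≤ p.1 then (if 0 ≤ p.2 then q (fun _ => p.1.toNat, fun _ => p.2.toNat) else 0)
      else 0
    split_ifs
    · exact hq _
    · exact le_rfl
    · exact le_rfl
  have hsum1 : ∀ (N : ℕ) (z : Z), ∑ n ∈ Finset.Icc (-(N : ℤ)) (N : ℤ), ξ' n z =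
      ∑ n ∈ Finset.range (N + 1), ξ (fun _ => n) z := fun N z =>
    sum_half (fun n => ξ (fun _ => n) z) N
  have hsum2 : ∀ N : ℕ, ∑ p ∈ sq N, q' p =
      ∑ p ∈ box 1 (fun _ => N + 1) ×ˢ box 1 (fun _ => N + 1), q p := by
    intro N
    unfold Pool.Agent.TH739.PA.sq
    rw [Finset.sum_product, Finset.sum_product, sum_box1]
    have e1 : ∀ a : ℤ, ∑ b ∈ Finset.Icc (-(N : ℤ)) (N : ℤ), q' (a, b) =
        if 0 ≤ a then ∑ b ∈ Finset.range (N + 1), q (fun _ => a.toNat, fun _ => b) else 0 := by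
      intro a
      by_cases ha : 0 ≤ a
      · rw [if_pos ha, ← sum_half]
        refine Finset.sum_congr rfl fun b _ => ?_
        show (if 0 ≤ a then (if 0 ≤ b then q (fun _ => a.toNat, fun _ => b.toNat) else 0) else 0)
          = _
        rw [if_pos ha]
      · rw [if_neg ha]
        refine Finset.sum_eq_zero fun b _ => ?_
        show (if 0 ≤ a then (if 0 ≤ b then q (fun _ => a.toNat, fun _ => b.toNat) else 0) else 0)
          = _
        rw [if_neg ha]
    simp only [e1]
    rw [sum_half (fun a => ∑ b ∈ Finset.range (N + 1), q (fun _ => a, fun _ => b))]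
    refine Finset.sum_congr rfl fun a _ => ?_
    rw [sum_box1]
  have hs' : Summable fun p : ℤ × ℤ => q' p / (1 + mx p) ^ 2 := by
    let ι : ℕ × ℕ → ℤ × ℤ := fun p => ((p.1 : ℤ), (p.2 : ℤ))
    have hι : Function.Injective ι := by
      intro a b hab
      have h1 : (a.1 : ℤ) = b.1 := congrArg Prod.fst hab
      have h2 : (a.2 : ℤ) = b.2 := congrArg Prod.snd hab
      exact Prod.ext (by exact_mod_cast h1) (by exact_mod_cast h2)
    rw [← hι.summable_iff]
    · refine hs.congr fun p => ?_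
      show _ = (if 0 ≤ ((p.1 : ℕ) : ℤ) then (if 0 ≤ ((p.2 : ℕ) : ℤ) then
        q (fun _ => (p.1 : ℤ).toNat, fun _ => (p.2 : ℤ).toNat) else 0) else 0) /
        (1 + mx ((p.1 : ℤ), (p.2 : ℤ))) ^ 2
      rw [if_pos (Int.natCast_nonneg _), if_pos (Int.natCast_nonneg _), Int.toNat_natCast,
        Int.toNat_natCast, mx]
      simp
    · intro p hp
      have h4 : q' p = 0 := by
        show (if 0 ≤ p.1 then (if 0 ≤ p.2 then q (fun _ => p.1.toNat, fun _ => p.2.toNat) else 0)
          else 0) = 0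
        by_cases h1 : 0 ≤ p.1
        · by_cases h2 : 0 ≤ p.2
          · exact absurd ⟨(p.1.toNat, p.2.toNat), by
              show (((p.1.toNat : ℕ) : ℤ), ((p.2.toNat : ℕ) : ℤ)) = p
              rw [Int.toNat_of_nonneg h1, Int.toNat_of_nonneg h2]⟩ hp
          · rw [if_pos h1, if_neg h2]
        · rw [if_neg h1]
      rw [h4, zero_div]
  have hmain := Pool.Agent.TH739.PA.two_sided (P := P) (ξ := ξ') (fun n => by
      by_cases hn : 0 ≤ n
      · simp only [ξ', hn, if_true]
        exact h1 _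
      · simp only [ξ', hn, if_false]
        exact measurable_const) (fun n z => by
      by_cases hn : 0 ≤ n
      · simp only [ξ', hn, if_true]
        exact h2 _ _
      · simp only [ξ', hn, if_false, abs_zero]
        exact zero_le_one) hq' hs' (fun N => by
      rw [hsum2]
      refine le_trans (le_of_eq ?_) (h3 fun _ => N + 1)
      congr 1
      funext z
      rw [hsum1, sum_box1])
  filter_upwards [hmain] with z hz
  have e : (fun M : Fin 1 → ℕ => avr (box 1 M) fun n => ξ n z) = fun M =>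
      (fun N : ℕ => (N : ℝ)⁻¹ * ∑ n ∈ Finset.range N, ξ (fun _ => n) z) (M 0) := by
    funext M
    rw [avr_one]
  rw [e]
  refine (tendsto_one (g := fun N : ℕ => (N : ℝ)⁻¹ *
    ∑ n ∈ Finset.range N, ξ (fun _ => n) z)).mpr ?_
  refine half_lim (S := fun N => ∑ n ∈ Finset.range N, ξ (fun _ => n) z) ?_
  refine hz.congr fun N => ?_
  rw [avr, Pool.Agent.TH739.PA.Icc_card, hsum1]

end lp

end Run7.h694.BT
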