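import Pool.Agent.Run7.h694.BT.D

/-! One parameter: classes of systems (helper694). -/

set_option autoImplicit false
set_option linter.unusedSectionVars false

open Filter Topology MeasureTheory ProbabilityTheory Set
open scoped ENNReal symmDiff commutatorElement

noncomputable section

namespace Run7.h694.BT

open Pool.Agent.W761.Gauss (BM BM_of_memLp)
open Pool.Agent.W761.Box (bx bxc orb orb_mp Cv)
open Pool.Agent.TH739.PA (av avr av_add av_mul av_ofReal Good LP PZ PZ_all bar bar_BM pr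
  IsPoissonAction)
open Pool.Agent.TH739.PB (box mem_box lin orb_lin CJ good_lin pact pact_mp av_box)

variable {G : Type} [Group G] {m : ℕ}

/-- the `q`-th powers of the elements of `𝒰` -/
def pw (𝒰 : Set G) (q : ℤ) : Set (Fin 1 → G) := {u | ∃ b ∈ 𝒰, u 0 = b ^ q}

section basic

variable {𝒰 : Set G} {q : ℤ} {X : Type} [MeasurableSpace X] {μ : Measure X}
  [IsProbabilityMeasure μ] {Φ : G →* Equiv.Perm X} {b : Bool}

theorem TF.one (hΦ : ∀ g, MeasurePreserving (Φ g) μ μ) (H : TF b (pw 𝒰 q) μ Φ) {c : Fin m → G}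
    (hc : ∀ j, ∃ a ∈ 𝒰, c j = a ^ q) (w : Fin m → G) {f : Fin m → X → ℂ}
    (hf : ∀ j, MemLp (f j) ∞ μ) :
    ∀ᵐ x ∂μ, ∃ L : ℂ, Tendsto (fun N : ℕ => (N : ℂ)⁻¹ * ∑ n ∈ Finset.range N,
      ∏ j, f j (Φ (w j * c j ^ n) x)) atTop (𝓝 L) := by
  have h1 := H.final_plain hΦ (u := fun j _ => c j) (fun j => hc j) w hf
  filter_upwards [h1] with x hx
  obtain ⟨L, hL⟩ := hx
  refine ⟨L, (tendsto_one (g := fun N : ℕ => (N : ℂ)⁻¹ * ∑ n ∈ Finset.range N,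
      ∏ j, f j (Φ (w j * c j ^ n) x))).mp (hL.congr fun M => ?_)⟩
  show (∏ l, (M l : ℂ))⁻¹ * ∑ n ∈ box 1 M, ∏ j, f j (Φ (w j * lin (fun _ => c j) n) x) = _
  rw [Fin.prod_univ_one, sum_box1]
  simp only [lin_one]

theorem TF.one_joint (hΦ : ∀ g, MeasurePreserving (Φ g) μ μ) (H : TF true (pw 𝒰 q) μ Φ)
    {c : Fin m → G} (hc : ∀ j, ∃ a ∈ 𝒰, c j = a ^ q) (w : Fin m → G) {f : Fin m → X → ℂ}
    (hf : ∀ j, MemLp (f j) ∞ μ) {Ω : Type} [MeasurableSpace Ω] {P : Measure Ω}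
    [IsProbabilityMeasure P] {V : Ω → Ω} (hV : MeasurePreserving V P P) {h : Ω → ℂ}
    (hh : MemLp h ∞ P) :
    ∀ᵐ p ∂(μ.prod P), ∃ L : ℂ, Tendsto (fun N : ℕ => (N : ℂ)⁻¹ * ∑ n ∈ Finset.range N,
      (∏ j, f j (Φ (w j * c j ^ n) p.1)) * h (V^[n] p.2)) atTop (𝓝 L) := by
  have h1 := H.final hΦ (u := fun j _ => c j) (fun j => hc j) w hf (Or.inl rfl)
    (V := fun _ => V) (fun _ => hV) hh
  filter_upwards [h1] with x hx
  obtain ⟨L, hL⟩ := hx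
  refine ⟨L, (tendsto_one (g := fun N : ℕ => (N : ℂ)⁻¹ * ∑ n ∈ Finset.range N,
      (∏ j, f j (Φ (w j * c j ^ n) x.1)) * h (V^[n] x.2))).mp (hL.congr fun M => ?_)⟩
  show (∏ l, (M l : ℂ))⁻¹ * ∑ n ∈ box 1 M, (∏ j, f j (Φ (w j * lin (fun _ => c j) n) x.1)) *
    h (orb 1 (fun _ => V) n x.2) = _
  rw [Fin.prod_univ_one, sum_box1]
  simp only [lin_one]
  rfl

theorem TF.two (hΦ : ∀ g, MeasurePreserving (Φ g) μ μ) (H : TF b (pw 𝒰 1) μ Φ)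
    (H' : TF b (pw 𝒰 (-1)) μ Φ) {c : Fin m → G}
    (hc : ∀ j, c j ∈ 𝒰) (w : Fin m → G) {f : Fin m → X → ℂ}
    (hf : ∀ j, MemLp (f j) ∞ μ) :
    ∀ᵐ x ∂μ, ∃ L : ℂ, Tendsto (fun N : ℕ => ((2 * N + 1 : ℕ) : ℂ)⁻¹ *
      ∑ n ∈ Finset.Icc (-(N : ℤ)) (N : ℤ), ∏ j, f j (Φ (w j * c j ^ n) x)) atTop (𝓝 L) := by
  have h1 := H.one hΦ (c := c) (fun j => ⟨c j, hc j, (zpow_one _).symm⟩) w hf
  have h2 := H'.one hΦ (c := fun j => (c j)⁻¹) (fun j => ⟨c j, hc j, (zpow_neg_one _).symm⟩) w hf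
  filter_upwards [h1, h2] with x hx1 hx2
  obtain ⟨L, hL⟩ := hx1
  obtain ⟨L', hL'⟩ := hx2
  have h5 := Pool.Agent.W761.Gauss.A2_tendsto (a := fun n : ℤ => ∏ j, f j (Φ (w j * c j ^ n) x))
    (L := L) (L' := L') (hL.congr fun N => by simp only [zpow_natCast])
    (hL'.congr fun N => by simp only [zpow_neg, zpow_natCast, inv_pow])
  exact ⟨_, h5⟩

theorem TF.of_one (h : ∀ (r : ℕ) (c : Fin r → G), Function.Injective c →
    (∀ j, ∃ a ∈ 𝒰, c j = a ^ q) → ∀ F : Fin r → X → ℂ, (∀ j, BM (F j)) →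
    ∀ᵐ x ∂μ, ∃ L : ℂ, Tendsto (fun N : ℕ => (N : ℂ)⁻¹ * ∑ n ∈ Finset.range N,
      ∏ j, F j (Φ (c j ^ n) x)) atTop (𝓝 L)) : TF false (pw 𝒰 q) μ Φ := by
  refine TF.plain fun r v hv hvU F hF => ?_
  have h1 := h r (fun j => v j 0) (fun i j hij => hv (funext fun l => by
    rw [Subsingleton.elim l 0]
    exact hij)) hvU F hF
  filter_upwards [h1] with x hx
  obtain ⟨L, hL⟩ := hx
  refine ⟨L, ?_⟩
  have h2 := (tendsto_one (g := fun N : ℕ => (N : ℂ)⁻¹ * ∑ n ∈ Finset.range N,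
      ∏ j, F j (Φ (v j 0 ^ n) x))).mpr hL
  refine h2.congr fun M => ?_
  rw [← av_box, av_one]
  simp only [lin_one]

theorem TF.of_one_joint (h : ∀ (r : ℕ) (c : Fin r → G), Function.Injective c →
    (∀ j, ∃ a ∈ 𝒰, c j = a ^ q) → ∀ F : Fin r → X → ℂ, (∀ j, BM (F j)) →
    ∀ (Ω : Type) (_ : MeasurableSpace Ω) (P : Measure Ω) (_ : IsProbabilityMeasure P)
      (V : Ω → Ω), MeasurePreserving V P P → ∀ h : Ω → ℝ, Measurable h →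
      (∃ C : ℝ, ∀ z, |h z| ≤ C) →
    ∀ᵐ p ∂(μ.prod P), ∃ L : ℂ, Tendsto (fun N : ℕ => (N : ℂ)⁻¹ * ∑ n ∈ Finset.range N,
      (∏ j, F j (Φ (c j ^ n) p.1)) * (h (V^[n] p.2) : ℂ)) atTop (𝓝 L)) :
    TF true (pw 𝒰 q) μ Φ := by
  refine TF.of_JC fun r v hv hvU => ?_
  intro Z mZ P hP σ hσ f hf hfb F hF
  have h1 := h r (fun j => v j 0) (fun i j hij => hv (funext fun l => by
    rw [Subsingleton.elim l 0]
    exact hij)) hvU F hF Z mZ P hP (σ 0) (hσ 0) f hf hfb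
  filter_upwards [h1] with p hp
  obtain ⟨L, hL⟩ := hp
  refine ⟨L, ?_⟩
  have h2 := (tendsto_one (g := fun N : ℕ => (N : ℂ)⁻¹ * ∑ n ∈ Finset.range N,
      (∏ j, F j (Φ (v j 0 ^ n) p.1)) * (f ((σ 0)^[n] p.2) : ℂ))).mpr hL
  refine h2.congr fun M => ?_
  rw [av_one]
  simp only [lin_one]
  rfl

end basic

section poisson

variable {X Y W : Type} [MeasurableSpace X] [MeasurableSpace Y] [MeasurableSpace W]
  {μ : Measure X} [IsProbabilityMeasure μ] {ν : Measure Y} [IsProbabilityMeasure ν]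
  {κ : Measure W} {Φ : G →* Equiv.Perm X} {Θ : G →* Equiv.Perm W} {Ψ : G →* Equiv.Perm Y}

theorem over_zero (hΦ : ∀ g, MeasurePreserving (Φ g) μ μ) (hΨ : IsPoissonAction κ Θ ν Ψ)
    (c : Fin m → G) {ℛ : Set (Set W)} (hℛ : ∀ A ∈ ℛ, MeasurableSet A ∧ κ A ≠ ∞)
    (hd : ∀ A, MeasurableSet A → κ A ≠ ∞ → ∀ ε : ℝ, 0 < ε → ∃ B ∈ ℛ, (κ (A ∆ B)).toReal ≤ ε)
    (hself : ∀ j, ∀ A ∈ ℛ, Summable fun p : ℕ × ℕ =>
      κ.real (Θ (c j ^ p.1) ⁻¹' A ∩ Θ (c j ^ p.2) ⁻¹' A) / (1 + max (p.1 : ℝ) (p.2 : ℝ)) ^ 2)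
    (hcross : ∀ i j, i ≠ j → ∀ A ∈ ℛ, ∀ B ∈ ℛ, Tendsto (fun N : ℕ => (N : ℝ)⁻¹ *
      ∑ n ∈ Finset.range N, κ.real (Θ (c i ^ n) ⁻¹' A ∩ Θ (c j ^ n) ⁻¹' B)) atTop (𝓝 0))
    {F : Fin m → X × Y → ℂ} (hF : ∀ j, BM (F j)) :
    PZ atTop (box 1) μ ν (fun j (n : Fin 1 → ℕ) z => (Φ (c j ^ n 0) z.1, Ψ (c j ^ n 0) z.2)) F := by
  obtain ⟨E, hE, hEq⟩ := hΨ.void
  refine PZ_all (κ := κ) (γ := fun j (n : Fin 1 → ℕ) => (Θ (c j ^ n 0) : W → W)) hE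
    (fun j n => hΦ _) (fun j n => hΨ.mp _) (fun j n => hΨ.base _)
    (fun j n A hA hAf => hEq _ A hA hAf) hℛ hd ?_ ?_ ?_ hF
  · intro A hA
    refine LP_one (fun p => mul_nonneg (Nat.cast_nonneg _) (Finset.sum_nonneg fun j _ =>
      measureReal_nonneg)) ?_
    have h1 : Summable fun p : ℕ × ℕ => (m : ℝ) * ∑ j, κ.real (Θ (c j ^ p.1) ⁻¹' A j ∩
        Θ (c j ^ p.2) ⁻¹' A j) / (1 + max (p.1 : ℝ) (p.2 : ℝ)) ^ 2 :=
      (summable_sum fun j _ => hself j (A j) (hA j)).mul_left _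
    refine h1.congr fun p => ?_
    show _ = ((m : ℝ) * ∑ j, κ.real (Θ (c j ^ p.1) ⁻¹' A j ∩ Θ (c j ^ p.2) ⁻¹' A j)) / _
    rw [← Finset.sum_div, mul_div_assoc]
  · intro i j hij A hA B hB
    have h1 := (tendsto_one (g := fun N : ℕ => (N : ℝ)⁻¹ *
      ∑ n ∈ Finset.range N, κ.real (Θ (c i ^ n) ⁻¹' A ∩ Θ (c j ^ n) ⁻¹' B))).mpr
        (hcross i j hij A hA B hB)
    refine h1.congr fun M => ?_
    rw [avr_one]
  · intro j
    have h1 := good_lin (k := 1) (Φ := pact Φ Ψ) (P := μ.prod ν) (pact_mp hΦ hΨ.mp) fun _ => c j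
    have e : (fun (n : Fin 1 → ℕ) (x : X × Y) => pact Φ Ψ (lin (fun _ => c j) n) x) =
        fun n z => (Φ (c j ^ n 0) z.1, Ψ (c j ^ n 0) z.2) := by
      funext n z
      rw [lin_one]
      rfl
    rwa [e] at h1

/-- Poisson extensions of arbitrary systems of the plain class -/
theorem TF.over {𝒰 : Set G} {q : ℤ} (hΦ : ∀ g, MeasurePreserving (Φ g) μ μ)
    (hΨ : IsPoissonAction κ Θ ν Ψ)
    {ℛ : Set (Set W)} (hℛ : ∀ A ∈ ℛ, MeasurableSet A ∧ κ A ≠ ∞)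
    (hd : ∀ A, MeasurableSet A → κ A ≠ ∞ → ∀ ε : ℝ, 0 < ε → ∃ B ∈ ℛ, (κ (A ∆ B)).toReal ≤ ε)
    (hself : ∀ a ∈ 𝒰, ∀ A ∈ ℛ, Summable fun p : ℕ × ℕ =>
      κ.real (Θ ((a ^ q) ^ p.1) ⁻¹' A ∩ Θ ((a ^ q) ^ p.2) ⁻¹' A) /
        (1 + max (p.1 : ℝ) (p.2 : ℝ)) ^ 2)
    (hcross : ∀ a ∈ 𝒰, ∀ b ∈ 𝒰, a ^ q ≠ b ^ q → ∀ A ∈ ℛ, ∀ B ∈ ℛ, Tendsto (fun N : ℕ =>
      (N : ℝ)⁻¹ * ∑ n ∈ Finset.range N,
        κ.real (Θ ((a ^ q) ^ n) ⁻¹' A ∩ Θ ((b ^ q) ^ n) ⁻¹' B)) atTop (𝓝 0))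
    (h : TF false (pw 𝒰 q) μ Φ) : TF false (pw 𝒰 q) (μ.prod ν) (pact Φ Ψ) := by
  refine TF.of_one fun r c hc hcU F hF => ?_
  choose a ha hca using hcU
  have h1 := over_zero (m := r) hΦ hΨ c hℛ hd (fun j A hA => by
      simp only [hca]
      exact hself _ (ha j) A hA) (fun i j hij A hA B hB => by
      have h2 : a i ^ q ≠ a j ^ q := by
        rw [← hca, ← hca]
        exact hc.ne hij
      simp only [hca]
      exact hcross _ (ha i) _ (ha j) h2 A hA B hB) hF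
  let g : Fin r → X → ℂ := fun j x => ∫ y, F j (x, y) ∂ν
  have hg : ∀ j, BM (g j) := by
    intro j
    obtain ⟨h3, C, h4⟩ := bar_BM (ν := ν) (hF j)
    have hsm : StronglyMeasurable fun x => ∫ y, F j (x, y) ∂ν :=
      StronglyMeasurable.integral_prod_right' (ν := ν) (hF j).1.stronglyMeasurable
    refine ⟨hsm.measurable, ?_⟩
    obtain ⟨-, C', hC'⟩ := hF j
    exact ⟨C', fun x => by
      have h5 := norm_integral_le_of_norm_le_const (μ := ν) (f := fun y => F j (x, y))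
        (Eventually.of_forall fun y => hC' (x, y))
      simpa using h5⟩
  have h2 := h.one hΦ (c := c) (fun j => ⟨a j, ha j, hca j⟩) (fun _ => 1) (f := g) fun j => by
    obtain ⟨hm, C, hC⟩ := hg j
    exact memLp_top_of_bound hm.aestronglyMeasurable C (Eventually.of_forall hC)
  filter_upwards [h1, Measure.quasiMeasurePreserving_fst.ae h2] with z hz1 hz2
  obtain ⟨L, hL⟩ := hz2
  have h3 := (tendsto_one (g := fun N : ℕ => (N : ℂ)⁻¹ * ∑ n ∈ Finset.range N,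
      ∏ j, g j (Φ (1 * c j ^ n) z.1))).mpr hL
  have h4 := hz1.add h3
  rw [zero_add] at h4
  refine ⟨L, (tendsto_one (g := fun N : ℕ => (N : ℂ)⁻¹ * ∑ n ∈ Finset.range N,
      ∏ j, F j (pact Φ Ψ (c j ^ n) z))).mp (h4.congr fun M => ?_)⟩
  rw [av_one, ← mul_add, ← Finset.sum_add_distrib]
  congr 1
  refine Finset.sum_congr rfl fun n _ => ?_
  unfold Pool.Agent.TH739.PA.pr
  have e1 : ∏ l, bar ν (F l) (Φ (c l ^ n) z.1, Ψ (c l ^ n) z.2) =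
      ∏ j, g j (Φ (1 * c j ^ n) z.1) := by
    refine Finset.prod_congr rfl fun j _ => ?_
    rw [one_mul]
    rfl
  show (∏ l, F l (Φ (c l ^ n) z.1, Ψ (c l ^ n) z.2) -
    ∏ l, bar ν (F l) (Φ (c l ^ n) z.1, Ψ (c l ^ n) z.2)) + _ = _
  rw [e1, sub_add_cancel]
  rfl

end poisson

end Run7.h694.BT
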