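import Pool.Agent.Run7.h694.BT.E

/-! One parameter: Gaussian systems of class two and toral skew products (helper694). -/

set_option autoImplicit false
set_option linter.unusedSectionVars false

open Filter Topology MeasureTheory ProbabilityTheory Set
open scoped ENNReal symmDiff commutatorElement

noncomputable section

namespace Run7.h694.BT

open Pool.Agent.W761.Gauss (BM BM_of_memLp A2 A2_tendsto PG GaussSpace Adm sat sig sig_mono le_sat
  IsGaussianSystem ex_sum birkC)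

section gauss

theorem PG_abs : PG fun n => |n| := by
  intro Ω _ P _ τ hτ' hτ F hF hb
  obtain ⟨C, hC⟩ := hb
  have h1 := birkC hτ hF hC
  filter_upwards [h1] with ω hω
  obtain ⟨L, hL⟩ := hω
  refine ⟨2⁻¹ * (L + L), A2_tendsto (hL.congr fun N => ?_) (hL.congr fun N => ?_)⟩
  · unfold Pool.Agent.W761.Gauss.A1
    congr 1
    refine Finset.sum_congr rfl fun n _ => ?_
    rw [abs_of_nonneg (Int.natCast_nonneg n), zpow_natCast, Equiv.Perm.coe_pow]
  · unfold Pool.Agent.W761.Gauss.A1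
    congr 1
    refine Finset.sum_congr rfl fun n _ => ?_
    rw [abs_neg, abs_of_nonneg (Int.natCast_nonneg n), zpow_natCast, Equiv.Perm.coe_pow]

/-- from averages of even sequences to one-sided averages -/
theorem even_lim {a : ℕ → ℂ} {L : ℂ}
    (h : Tendsto (A2 fun n => a n.natAbs) atTop (𝓝 L)) :
    Tendsto (fun N : ℕ => (N : ℂ)⁻¹ * ∑ n ∈ Finset.range N, a n) atTop (𝓝 L) := by
  rw [← tendsto_add_atTop_iff_nat 1]
  have hsum : ∀ N : ℕ, ∑ n ∈ Finset.Icc (-(N : ℤ)) (N : ℤ), a n.natAbs =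
      2 * ∑ n ∈ Finset.range (N + 1), a n - a 0 := by
    intro N
    induction N with
    | zero =>
      simp
      ring
    | succ N ih =>
      have e3 : Finset.Icc (-((N + 1 : ℕ) : ℤ)) ((N + 1 : ℕ) : ℤ) =
          insert ((N + 1 : ℕ) : ℤ) (insert (-((N + 1 : ℕ) : ℤ))
            (Finset.Icc (-(N : ℤ)) (N : ℤ))) := by
        ext z
        simp only [Finset.mem_insert, Finset.mem_Icc]
        push_cast
        omega
      rw [e3, Finset.sum_insert, Finset.sum_insert, ih, Finset.sum_range_succ _ (N + 1),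
        Int.natAbs_neg, Int.natAbs_natCast]
      · ring
      · simp only [Finset.mem_Icc]
        push_cast
        omega
      · simp only [Finset.mem_insert, Finset.mem_Icc]
        push_cast
        omega
  have hinv : Tendsto (fun N : ℕ => (((N + 1 : ℕ)) : ℂ)⁻¹) atTop (𝓝 0) := by
    have h1 := (tendsto_inv_atTop_nhds_zero_nat (𝕜 := ℝ)).comp (tendsto_add_atTop_nat 1)
    have h2 := (Complex.continuous_ofReal.tendsto _).comp h1
    rw [Complex.ofReal_zero] at h2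
    refine h2.congr fun N => ?_
    simp only [Function.comp_apply]
    push_cast
    rfl
  have hlim := ((hinv.const_mul (-(2⁻¹ : ℂ))).const_add 1).mul h
  have hlim2 := hlim.add (hinv.mul_const (2⁻¹ * a 0))
  have e0 : (1 + -(2⁻¹ : ℂ) * 0) * L + 0 * (2⁻¹ * a 0) = L := by ring
  rw [e0] at hlim2
  refine hlim2.congr fun N => ?_
  unfold Pool.Agent.W761.Gauss.A2
  rw [hsum]
  have h1 : ((N + 1 : ℕ) : ℂ) ≠ 0 := by exact_mod_cast Nat.succ_ne_zero N
  have h2 : ((2 * N + 1 : ℕ) : ℂ) ≠ 0 := by exact_mod_cast Nat.succ_ne_zero (2 * N)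
  have h3 : ((2 * N + 1 : ℕ) : ℂ) = 2 * ((N + 1 : ℕ) : ℂ) - 1 := by
    push_cast
    ring
  have e1 : (1 + -(2⁻¹ : ℂ) * (((N + 1 : ℕ)) : ℂ)⁻¹) =
      2⁻¹ * (((N + 1 : ℕ)) : ℂ)⁻¹ * ((2 * N + 1 : ℕ) : ℂ) := by
    rw [h3]
    field_simp
    ring
  rw [e1]
  have e2 : (2⁻¹ * (((N + 1 : ℕ)) : ℂ)⁻¹ * ((2 * N + 1 : ℕ) : ℂ)) * (((2 * N + 1 : ℕ) : ℂ)⁻¹ *
      (2 * ∑ n ∈ Finset.range (N + 1), a n - a 0)) =
      2⁻¹ * (((N + 1 : ℕ)) : ℂ)⁻¹ * (2 * ∑ n ∈ Finset.range (N + 1), a n - a 0) := by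
    rw [← mul_assoc, mul_assoc _ ((2 * N + 1 : ℕ) : ℂ) _, mul_inv_cancel₀ h2, mul_one]
  rw [e2]
  ring

variable {X : Type} [MeasurableSpace X] {μ : Measure X} {r : ℕ}

/-- one-sided averages of Gaussian systems of class two -/
theorem gauss_one [IsProbabilityMeasure μ] {S : Fin r → Equiv.Perm X}
    (hS : IsGaussianSystem μ S) (hc : ∀ j k, Commute ⁅S j, S k⁆ (S j))
    {f : Fin r → X → ℂ} (hf : ∀ j, BM (f j)) :
    ∀ᵐ x ∂μ, ∃ L : ℂ, Tendsto (fun N : ℕ => (N : ℂ)⁻¹ * ∑ n ∈ Finset.range N,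
      ∏ j, f j ((S j ^ n) x)) atTop (𝓝 L) := by
  obtain ⟨H, h1, h2, h3⟩ := hS.gauss
  have hH : GaussSpace μ H := ⟨fun h hh => (h1 h hh).1, fun h hh => (h1 h hh).2⟩
  have hadm : ∀ i, Adm μ (sat μ H) (S i) := by
    intro i
    have hinv : MeasurePreserving ((S i)⁻¹ : Equiv.Perm X) μ μ := by
      let e : X ≃ᵐ X := ⟨S i, (hS.mp i).measurable, hS.meas_symm i⟩
      exact (hS.mp i).symm e
    refine ⟨hS.mp i, hinv, ?_, ?_⟩
    · rintro g ⟨hg, h, hh, e⟩
      obtain ⟨h', hh', e'⟩ := (h2 i h hh).1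
      refine ⟨hg.comp (hS.mp i).measurable, h', hh', ?_⟩
      exact ((hS.mp i).quasiMeasurePreserving.ae_eq_comp e).trans e'
    · rintro g ⟨hg, h, hh, e⟩
      obtain ⟨h', hh', e'⟩ := (h2 i h hh).2
      refine ⟨hg.comp hinv.measurable, h', hh', ?_⟩
      exact (hinv.quasiMeasurePreserving.ae_eq_comp e).trans e'
  have hgen : ∀ A, MeasurableSet A → ∃ B, MeasurableSet[sig (sat μ H)] B ∧ A =ᵐ[μ] B := by
    intro A hA
    obtain ⟨B, hB, e⟩ := h3 A hA
    exact ⟨B, sig_mono (le_sat hH) B hB, e⟩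
  have hexp : ∀ h : Fin r → X → ℝ, (∀ j, h j ∈ sat μ H) →
      Pool.Agent.W761.Gauss.Cv μ S (fun n => |n|) (fun j x => Pool.Agent.W761.Gauss.ex (h j x)) := by
    intro h hh
    have h4 := hH.sat.conv_exp2 hadm hc hh
    filter_upwards [h4] with x hx
    obtain ⟨L, hL⟩ := hx
    refine ⟨2⁻¹ * (L + L), A2_tendsto (hL.congr fun N => ?_) (hL.congr fun N => ?_)⟩
    · unfold Pool.Agent.W761.Gauss.A1
      congr 1
      refine Finset.sum_congr rfl fun n _ => ?_
      show Pool.Agent.W761.Gauss.ex (∑ j, h j ((S j ^ n : Equiv.Perm X) x)) = _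
      rw [ex_sum]
      simp only [abs_of_nonneg (Int.natCast_nonneg n), zpow_natCast]
    · unfold Pool.Agent.W761.Gauss.A1
      congr 1
      refine Finset.sum_congr rfl fun n _ => ?_
      show Pool.Agent.W761.Gauss.ex (∑ j, h j ((S j ^ n : Equiv.Perm X) x)) = _
      rw [ex_sum]
      simp only [abs_neg, abs_of_nonneg (Int.natCast_nonneg n), zpow_natCast]
  have hmain := hH.sat.Cv_of_exp hgen PG_abs hadm hexp hf
  filter_upwards [hmain] with x hx
  obtain ⟨L, hL⟩ := hx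
  refine ⟨L, even_lim (a := fun n => ∏ j, f j ((S j ^ n) x)) (hL.congr fun N => ?_)⟩
  congr 1
  funext n
  refine Finset.prod_congr rfl fun j _ => ?_
  rw [Int.abs_eq_natAbs, zpow_natCast]

variable {G : Type} [Group G] {𝒰 : Set G} {q : ℤ} {Φ : G →* Equiv.Perm X}

theorem TF.gauss2 [IsProbabilityMeasure μ] (h : IsGaussianSystem μ fun g : G => Φ g)
    (hc : ∀ a ∈ 𝒰, ∀ b ∈ 𝒰, Commute ⁅Φ (a ^ q), Φ (b ^ q)⁆ (Φ (a ^ q))) :
    TF false (pw 𝒰 q) μ Φ := by
  refine TF.of_one fun r c hcinj hcU F hF => ?_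
  choose a ha hca using hcU
  have hS : IsGaussianSystem μ fun j : Fin r => Φ (c j) := by
    obtain ⟨H, h1, h2, h3⟩ := h.gauss
    exact ⟨fun j => h.meas_symm (c j), fun j => h.mp (c j), H, h1, fun j => h2 (c j), h3⟩
  have h1 := gauss_one hS (fun j k => by
    show Commute ⁅Φ (c j), Φ (c k)⁆ (Φ (c j))
    rw [hca, hca]
    exact hc _ (ha j) _ (ha k)) hF
  filter_upwards [h1] with x hx
  obtain ⟨L, hL⟩ := hx
  refine ⟨L, hL.congr fun N => ?_⟩
  simp only [map_pow]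

end gauss

section ovs

open Pool.Agent.TH739.PB (OvS lin)

theorem OvS_one {G W : Type} [Group G] [MeasurableSpace W] {κ : Measure W}
    {Θ : G →* Equiv.Perm W} {u v : Fin 1 → G} {A B : Set W}
    (hs : Summable fun n : ℕ => κ.real (Θ (u 0 ^ n) ⁻¹' A ∩ Θ (v 0 ^ n) ⁻¹' B) /
      (1 + (n : ℝ))) : OvS κ Θ u v A B := by
  have hi : Function.Injective fun p : Pool.Agent.TH739.PB.Sub
      (fun l => u l = v l ∧ u l ∈ Subgroup.center G) => p.1 0 := by
    intro p p' h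
    apply Subtype.ext
    funext l
    rw [Subsingleton.elim l 0]
    exact h
  refine (hs.comp_injective hi).congr fun p => ?_
  rw [Fin.prod_univ_one, lin_one, lin_one]
  rfl

end ovs

section toral

open Pool.Agent.H922R3.TA (skewMap haarT toralMap Indep Good all_skew)

variable {G : Type} [Group G] {𝒰 : Set G} {q : ℤ} {d : ℕ} {Y : Type} [MeasurableSpace Y]
  {ν : Measure Y} [IsProbabilityMeasure ν] {Ψ : G →* Equiv.Perm Y}

theorem TF.toral (hΨ : ∀ g, MeasurePreserving (Ψ g) ν ν) {A : G → Matrix (Fin d) (Fin d) ℤ}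
    (hA : ∀ g, (A g).det ≠ 0) {φ : G → Y → UnitAddTorus (Fin d)} (hφ : ∀ g, Measurable (φ g))
    {Φ : G →* Equiv.Perm (Y × UnitAddTorus (Fin d))}
    (hΦ : ∀ g z, Φ g z = skewMap (A g) (Ψ g) (φ g) z)
    (hI : ∀ (r : ℕ) (c : Fin r → G), Function.Injective c → (∀ j, ∃ a ∈ 𝒰, c j = a ^ q) →
      Indep (fun j => A (c j)) ∨ ∀ j y, φ (c j) y = 0) (hq : q ≠ 0)
    (h : ∀ p : ℤ, p ≠ 0 → TF false (pw 𝒰 p) ν Ψ) :
    TF false (pw 𝒰 q) (ν.prod (haarT d)) Φ := by
  refine TF.of_one fun r c hcinj hcU F hF => ?_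
  choose a ha hca using hcU
  have hgood : ∀ p : ℕ, 1 ≤ p → Good ν fun j => (Ψ (c j) : Y → Y)^[p] := by
    intro p hp h' hm hb
    have hp0 : q * (p : ℤ) ≠ 0 := mul_ne_zero hq (by omega)
    have h1 := (h (q * p) hp0).one hΨ (c := fun j => a j ^ (q * (p : ℤ)))
      (fun j => ⟨a j, ha j, rfl⟩) (fun _ => 1) (f := h') fun j => by
        obtain ⟨C, hC⟩ := hb j
        exact memLp_top_of_bound (hm j).aestronglyMeasurable C (Eventually.of_forall hC)
    filter_upwards [h1] with y hy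
    obtain ⟨L, hL⟩ := hy
    refine ⟨L, hL.congr fun N => ?_⟩
    congr 1
    refine Finset.sum_congr rfl fun n _ => Finset.prod_congr rfl fun j _ => ?_
    rw [one_mul, zpow_mul, ← hca, zpow_natCast, map_pow, map_pow, Equiv.Perm.coe_pow,
      Equiv.Perm.coe_pow]
  have hmain := all_skew (ν := ν) (A := fun j => A (c j)) (fun j => hA _)
    (S := fun j => (Ψ (c j) : Y → Y)) (fun j => hΨ _) (φ := fun j => φ (c j)) (fun j => hφ _)
    (hI r c hcinj fun j => ⟨a j, ha j, hca j⟩) (Or.inr hgood)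
    (F := F) fun j => ⟨(hF j).1, (hF j).2⟩
  filter_upwards [hmain] with z hz
  obtain ⟨L, hL⟩ := hz
  refine ⟨L, hL.congr fun N => ?_⟩
  unfold Pool.Agent.H922R3.TA.Av
  congr 1
  refine Finset.sum_congr rfl fun n _ => Finset.prod_congr rfl fun j _ => ?_
  have e : (Φ (c j) : Y × UnitAddTorus (Fin d) → Y × UnitAddTorus (Fin d)) =
      skewMap (A (c j)) (Ψ (c j)) (φ (c j)) := funext (hΦ (c j))
  rw [map_pow, Equiv.Perm.coe_pow, e]

end toral

end Run7.h694.BT
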