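import Pool.Agent.TH784.KE.Multi
import Pool.Agent.TH784.KE.One
import Pool.Agent.TH739.PB.Fin

/-! Kolmogorov extensions: box averages with bounded weights (helper694). The proofs follow
`Pool.Agent.TH784.KE.Zero` and `Pool.Agent.TH784.KE.Multi`. -/

set_option autoImplicit false
set_option linter.unusedSectionVars false

open MeasureTheory Filter Topology
open scoped ENNReal

noncomputable section

namespace Run7.h694.BT

open Pool.Agent.W761.Box (bx bxc BM Good1 good1 prod_update bxc_add bxc_sub bxc_mul bxc_norm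
  bx_mono bx_mul int_lim_le' bx_add bx_sum bx_abs bx_const_le bx_nonneg)
open Pool.Agent.TH784.AA (bxs mem_bxs vol vol_pos vol_nonneg card_bxs sum_fiber bxs_mono)
open Pool.Agent.TH784.KE

section real

variable {X : Type*} {mA mY mX : MeasurableSpace X} {μ : Measure X} [IsProbabilityMeasure μ]
variable {G : Type*} [Group G]
variable {Φ : G →* Equiv.Perm X} {ℓ : G → ℝ}
variable {J : Type*} [DecidableEq J] [Fintype J] {k : ℕ}

theorem bound_aeW (hk : 0 < k) (hFl : Flow μ Φ) (hA : Filt mX mA Φ ℓ) (hY : Base mY mA Φ)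
    {S : Finset J} {q : (Fin k → ℕ) → J → G} {lam : J → ℝ} {θ : J → Fin k → ℝ}
    (hq : ∀ n v, ℓ (q n v) = pos lam θ n v)
    (h1 : ∀ v ∈ S, ∀ l, θ v l = 0 → ∀ n t, q (Function.update n l t) v = q n v)
    (h2 : ∀ l, ∃ v ∈ S, θ v l ≠ 0)
    {F H : J → X → ℝ} {r s : G} {R : ℝ} (hsr : ℓ s ≤ ℓ r) (hR : ℓ r - ℓ s ≤ R) (hR0 : 0 < R)
    (hF : ∀ v ∈ S, Measurable[cm mA Φ r] (F v)) (hF1 : ∀ v x, |F v x| ≤ 1)
    (hFY : ∀ v ∉ S, Measurable[mY] (F v)) (hH : ∀ v ∈ S, CE μ (cm mA Φ s) (F v) (H v))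
    {η : ℝ} (hη : 0 < η) {c : (Fin k → ℕ) → ℝ} (hc : ∀ n, |c n| ≤ 1) :
    ∀ᵐ x ∂μ, ∀ᶠ N : Fin k → ℕ in atTop,
      |bx k N fun n => c n * ∏ v, F v (Φ (q n v) x)| ≤
        η + bx k N fun n => errb Φ ℓ R H S (q n) x := by
  classical
  have : Nonempty (Fin k) := ⟨⟨0, hk⟩⟩
  obtain ⟨L, hL, hLβ⟩ : ∃ L : ℕ, 0 < L ∧ ∀ v ∈ S, ∀ l, θ v l ≠ 0 → R ≤ L * |θ v l| := by
    have h3 : ∀ v : J, ∀ l : Fin k, ∀ᶠ L : ℕ in atTop, θ v l ≠ 0 → R ≤ L * |θ v l| := by
      intro v l
      by_cases h0 : θ v l = 0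
      · exact Eventually.of_forall fun L h => absurd h0 h
      · have h4 : Tendsto (fun L : ℕ => (L : ℝ) * |θ v l|) atTop atTop :=
          tendsto_natCast_atTop_atTop.atTop_mul_const (abs_pos.2 h0)
        exact (h4.eventually_ge_atTop R).mono fun L hL _ => hL
    have h5 : ∀ᶠ L : ℕ in atTop, ∀ v : J, ∀ l : Fin k, θ v l ≠ 0 → R ≤ L * |θ v l| :=
      eventually_all.2 fun v => eventually_all.2 fun l => h3 v l
    obtain ⟨L, hL1, hL2⟩ := (h5.and (eventually_gt_atTop 0)).exists
    exact ⟨L, hL2, fun v _ l => hL1 v l⟩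
  let V : Fin k → Finset J := fun l => S.filter fun v => θ v l ≠ 0
  have hVS : ∀ l, V l ⊆ S := fun l => Finset.filter_subset _ _
  let W : (Fin k → ℕ) → X → ℝ := fun n x => c n * ∏ v ∈ Sᶜ, F v (Φ (q n v) x)
  have hW : ∀ n, Measurable[mY] (W n) ∧ ∀ x, |W n x| ≤ 1 := by
    intro n
    refine ⟨(Finset.measurable_fun_prod _ fun v hv => ?_).const_mul _, fun x => ?_⟩
    · exact (hFY v (Finset.mem_compl.1 hv)).comp (hY.inv _)
    · show |c n * ∏ v ∈ Sᶜ, F v (Φ (q n v) x)| ≤ 1
      rw [abs_mul]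
      exact mul_le_one₀ (hc n) (abs_nonneg _) (prod_abs_le (fun w _ => hF1 w) _ x)
  have hlines : ∀ᵐ x ∂μ, ∀ l : Fin k, ∀ᶠ M : ℕ in atTop, ∀ n ∈ bxs (fun _ : Fin k => M),
      |∑ t ∈ Finset.range M, ∑ v ∈ V l, DD (V l) Φ ℓ R F H (W (Function.update n l t))
        (q (Function.update n l t)) v x| ≤ η * M := by
    rw [ae_all_iff]
    intro l
    exact lines_ae hFl hA hY hq l (fun v hv => (Finset.mem_filter.1 hv).2) hsr hR hR0.le
      (fun w hw => ⟨hF w (hVS l hw), hF1 w⟩) (fun v hv => hH v (hVS l hv)) hW hL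
      (fun v hv => hLβ v (hVS l hv) l (Finset.mem_filter.1 hv).2) hη
  filter_upwards [hlines] with x hx
  obtain ⟨M₀, hM₀⟩ := eventually_atTop.1 (eventually_all.2 hx)
  refine eventually_atTop.2 ⟨fun _ => max M₀ 1, fun N hN => ?_⟩
  have hN1 : ∀ j, 1 ≤ N j := fun j => (le_max_right _ _).trans (hN j)
  obtain ⟨l, hl⟩ := Finite.exists_max N
  have hNl : M₀ ≤ N l := (le_max_left _ _).trans (hN l)
  have hNlpos : (0 : ℝ) < N l := by
    have := hN1 l
    positivity
  have hVne : (V l).Nonempty := by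
    obtain ⟨v, hv, h⟩ := h2 l
    exact ⟨v, Finset.mem_filter.2 ⟨hv, h⟩⟩
  -- factorisation
  have hfac : ∀ n : Fin k → ℕ, c n * ∏ v, F v (Φ (q n v) x) =
      (∏ v ∈ S.filter (fun v => ¬ θ v l ≠ 0), F v (Φ (q n v) x)) *
        ((∏ v ∈ V l, F v (Φ (q n v) x)) * W n x) := by
    intro n
    show _ = _ * (_ * (c n * ∏ v ∈ Sᶜ, F v (Φ (q n v) x)))
    rw [← Finset.prod_mul_prod_compl S, ← Finset.prod_filter_mul_prod_filter_not S
      (fun v => θ v l ≠ 0)]
    ring
  have hinv : ∀ (n : Fin k → ℕ) (t : ℕ),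
      ∏ v ∈ S.filter (fun v => ¬ θ v l ≠ 0), F v (Φ (q (Function.update n l t) v) x) =
      ∏ v ∈ S.filter (fun v => ¬ θ v l ≠ 0), F v (Φ (q n v) x) := by
    intro n t
    refine Finset.prod_congr rfl fun v hv => ?_
    rw [Finset.mem_filter, not_not] at hv
    rw [h1 v hv.1 l hv.2 n t]
  have hline : ∀ n ∈ bxs N, |(N l : ℝ)⁻¹ * ∑ t ∈ Finset.range (N l),
      c (Function.update n l t) * ∏ v, F v (Φ (q (Function.update n l t) v) x)| ≤
      η + (N l : ℝ)⁻¹ * ∑ t ∈ Finset.range (N l),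
        errb Φ ℓ R H S (q (Function.update n l t)) x := by
    intro n hn
    have hn' : n ∈ bxs (fun _ : Fin k => N l) := bxs_mono hl hn
    have e1 : ∑ t ∈ Finset.range (N l), c (Function.update n l t) *
        ∏ v, F v (Φ (q (Function.update n l t) v) x) =
        (∏ v ∈ S.filter (fun v => ¬ θ v l ≠ 0), F v (Φ (q n v) x)) *
        ∑ t ∈ Finset.range (N l),
          ((∏ v ∈ V l, F v (Φ (q (Function.update n l t) v) x)) *
            W (Function.update n l t) x) := by
      rw [Finset.mul_sum]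
      refine Finset.sum_congr rfl fun t _ => ?_
      rw [hfac, hinv]
    rw [e1, abs_mul, abs_mul, abs_of_pos (inv_pos.2 hNlpos)]
    have hK := prod_abs_le (Φ := Φ) (V := S.filter (fun v => ¬ θ v l ≠ 0)) (F := F)
      (fun w _ => hF1 w) (q n) x
    set K := ∏ v ∈ S.filter (fun v => ¬ θ v l ≠ 0), F v (Φ (q n v) x) with hKdef
    have e2 : |∑ t ∈ Finset.range (N l),
          ((∏ v ∈ V l, F v (Φ (q (Function.update n l t) v) x)) *
            W (Function.update n l t) x)| ≤ η * N l + ∑ t ∈ Finset.range (N l),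
        errb Φ ℓ R H S (q (Function.update n l t)) x := by
      have e3 : ∑ t ∈ Finset.range (N l),
          ((∏ v ∈ V l, F v (Φ (q (Function.update n l t) v) x)) *
            W (Function.update n l t) x) =
          ∑ t ∈ Finset.range (N l), ∑ v ∈ V l, DD (V l) Φ ℓ R F H (W (Function.update n l t))
            (q (Function.update n l t)) v x +
          ∑ t ∈ Finset.range (N l), ((∏ v ∈ V l, F v (Φ (q (Function.update n l t) v) x)) *
            W (Function.update n l t) x - ∑ v ∈ V l, DD (V l) Φ ℓ R F H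
              (W (Function.update n l t)) (q (Function.update n l t)) v x) := by
        rw [← Finset.sum_add_distrib]
        refine Finset.sum_congr rfl fun t _ => ?_
        ring
      rw [e3]
      refine (abs_add_le _ _).trans (add_le_add (hM₀ _ hNl l n hn') ?_)
      refine (Finset.abs_sum_le_sum_abs _ _).trans (Finset.sum_le_sum fun t _ => ?_)
      refine (pointwise hVne hR0 (fun w _ => hF1 w) (hW _).2 _ x).trans ?_
      exact errb_mono (Φ := Φ) (ℓ := ℓ) R H (hVS l) _ x
    calc (N l : ℝ)⁻¹ * (|K| * |∑ t ∈ Finset.range (N l),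
          ((∏ v ∈ V l, F v (Φ (q (Function.update n l t) v) x)) *
            W (Function.update n l t) x)|) ≤
          (N l : ℝ)⁻¹ * (1 * (η * N l + ∑ t ∈ Finset.range (N l),
            errb Φ ℓ R H S (q (Function.update n l t)) x)) := by
          refine mul_le_mul_of_nonneg_left ?_ (inv_pos.2 hNlpos).le
          exact mul_le_mul hK e2 (abs_nonneg _) zero_le_one
      _ = _ := by
          field_simp
  rw [bx_slice hN1 l]
  refine bx_abs.trans ((bx_mono_of hline).trans ?_)
  rw [bx_add, ← bx_slice hN1 l (fun n => errb Φ ℓ R H S (q n) x)]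
  exact add_le_add (bx_const_le hη.le) le_rfl

/-- **Convergence to zero.** -/
theorem box_zeroW (hk : 0 < k) (hFl : Flow μ Φ) (hA : Filt mX mA Φ ℓ) (hY : Base mY mA Φ)
    {S : Finset J} {q : (Fin k → ℕ) → J → G} {lam : J → ℝ} {θ : J → Fin k → ℝ}
    (hq : ∀ n v, ℓ (q n v) = pos lam θ n v)
    (h1 : ∀ v ∈ S, ∀ l, θ v l = 0 → ∀ n t, q (Function.update n l t) v = q n v)
    (h2 : ∀ l, ∃ v ∈ S, θ v l ≠ 0)
    (h3 : ∀ v ∈ S, ∀ w ∈ S, v ≠ w → ∃ l, θ v l ≠ θ w l)
    (hgood : ∀ v ∈ S, Good1 μ fun n => (Φ (q n v) : X → X))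
    {F : J → X → ℝ} {r : G}
    (hF : ∀ v ∈ S, Measurable[cm mA Φ r] (F v)) (hF1 : ∀ v x, |F v x| ≤ 1)
    (hFY : ∀ v ∉ S, Measurable[mY] (F v))
    (hsm : ∀ ε : ℝ, 0 < ε → ∃ s : G, ℓ s ≤ ℓ r ∧ ∃ H : J → X → ℝ,
      (∀ v ∈ S, CE μ (cm mA Φ s) (F v) (H v)) ∧ ∀ v ∈ S, ∫ x, |H v x| ∂μ ≤ ε)
    {c : (Fin k → ℕ) → ℝ} (hc : ∀ n, |c n| ≤ 1) :
    ∀ᵐ x ∂μ, Tendsto (fun N => bx k N fun n => c n * ∏ v, F v (Φ (q n v) x)) atTop (𝓝 0) := by
  classical
  have hbad : ∀ δ : ℝ, 0 < δ → ∀ᵐ x ∂μ, ∀ᶠ N : Fin k → ℕ in atTop,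
      |bx k N fun n => c n * ∏ v, F v (Φ (q n v) x)| ≤ δ := by
    intro δ hδ
    rw [ae_iff, ← nonpos_iff_eq_zero]
    apply ENNReal.le_of_forall_pos_le_add
    intro ε hε _
    rw [zero_add]
    have hε' : (0 : ℝ) < ε := by exact_mod_cast hε
    obtain ⟨s, hsr, H, hH, hHs⟩ := hsm (ε * (δ / 4) / (S.card + 1)) (by positivity)
    set R : ℝ := max (ℓ r - ℓ s) 1 with hRdef
    have hR : ℓ r - ℓ s ≤ R := le_max_left _ _
    have hR0 : 0 < R := lt_of_lt_of_le one_pos (le_max_right _ _)
    have hHm : ∀ v ∈ S, Measurable (H v) := fun v hv => (hH v hv).1.mono (cm_le hFl hA s) le_rfl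
    let E : J → X → ℝ := fun v x => limUnder atTop
      (fun N => bx k N fun n => |H v (Φ (q n v) x)|)
    have hE : ∀ v ∈ S, ∀ᵐ x ∂μ, Tendsto (fun N => bx k N fun n => |H v (Φ (q n v) x)|)
        atTop (𝓝 (E v x)) := by
      intro v hv
      have h4 := hgood v hv (fun x => |H v x|)
        (hHm v hv).abs ⟨1, fun x => by rw [abs_abs]; exact (hH v hv).2.1 x⟩
      filter_upwards [h4] with x hx
      exact tendsto_nhds_limUnder hx
    have hEint : ∀ v ∈ S, 0 ≤ᵐ[μ] E v ∧ Integrable (E v) μ ∧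
        ∫ x, E v x ∂μ ≤ ∫ x, |H v x| ∂μ := by
      intro v hv
      exact int_lim_le' (fun n => hFl (q n v)) (hHm v hv).abs (zero_le_one (α := ℝ))
        (fun x => by rw [abs_abs]; exact (hH v hv).2.1 x) (fun x => abs_nonneg _) (hE v hv)
    let T : X → ℝ := fun x => ∑ v ∈ S, E v x
    have hT0 : 0 ≤ᵐ[μ] T := by
      have : ∀ᵐ x ∂μ, ∀ v ∈ S, 0 ≤ E v x :=
        (ae_ball_iff S.countable_toSet).2 fun v hv => (hEint v hv).1
      filter_upwards [this] with x hx
      exact Finset.sum_nonneg hx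
    have hTi : Integrable T μ := integrable_finsetSum _ fun v hv => (hEint v hv).2.1
    have hTint : ∫ x, T x ∂μ ≤ ε * (δ / 4) := by
      have : ∫ x, T x ∂μ = ∑ v ∈ S, ∫ x, E v x ∂μ :=
        integral_finsetSum _ fun v hv => (hEint v hv).2.1
      rw [this]
      refine (Finset.sum_le_sum fun v hv => ((hEint v hv).2.2.trans (hHs v hv))).trans ?_
      rw [Finset.sum_const, nsmul_eq_mul, mul_div_assoc', div_le_iff₀ (by positivity)]
      have : 0 ≤ ε * (δ / 4) := by positivity
      nlinarith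
    have hmark := mul_meas_ge_le_integral_of_nonneg hT0 hTi (δ / 4)
    have hmark' : μ.real {x | δ / 4 ≤ T x} ≤ ε := by
      have h5 : δ / 4 * μ.real {x | δ / 4 ≤ T x} ≤ δ / 4 * ε := by
        refine (hmark.trans hTint).trans ?_
        rw [mul_comm]
      exact le_of_mul_le_mul_left h5 (by positivity)
    have hmain := bound_aeW (η := δ / 4) hk hFl hA hY hq h1 h2 hsr hR hR0 hF hF1 hFY hH
      (by positivity) hc
    have hEall : ∀ᵐ x ∂μ, ∀ v ∈ S, Tendsto (fun N => bx k N fun n =>
        |H v (Φ (q n v) x)|) atTop (𝓝 (E v x)) :=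
      (ae_ball_iff S.countable_toSet).2 fun v hv => hE v hv
    have hclose : Tendsto (fun N => ∑ v ∈ S, ∑ w ∈ S.erase v, bx k N
        (fun n => if |ℓ (q n v) - ℓ (q n w)| < R then (1 : ℝ) else 0))
        atTop (𝓝 0) := by
      simp only [hq]
      have h5 : Tendsto (fun N => ∑ v ∈ S, ∑ w ∈ S.erase v, bx k N
          (fun n => if |pos lam θ n v - pos lam θ n w| < R then (1 : ℝ) else 0))
          atTop (𝓝 (∑ v ∈ S, ∑ _w ∈ S.erase v, (0 : ℝ))) := by
        refine tendsto_finsetSum _ fun v hv => tendsto_finsetSum _ fun w hw => ?_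
        obtain ⟨l, hl⟩ := h3 v hv w (Finset.mem_of_mem_erase hw) (Finset.ne_of_mem_erase hw).symm
        exact tendsto_close hR0 lam θ hl
      rw [Finset.sum_eq_zero fun v _ => Finset.sum_const_zero] at h5
      exact h5
    have hsub : ∀ᵐ x ∂μ, x ∈ {x | ¬ ∀ᶠ N : Fin k → ℕ in atTop,
        |bx k N fun n => c n * ∏ v, F v (Φ (q n v) x)| ≤ δ} → x ∈ {x | δ / 4 ≤ T x} := by
      filter_upwards [hmain, hEall] with x hx1 hx2 hx3
      show δ / 4 ≤ T x
      by_contra hcon
      rw [not_le] at hcon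
      apply hx3
      have h6 : Tendsto (fun N => ∑ v ∈ S, bx k N fun n => |H v (Φ (q n v) x)|)
          atTop (𝓝 (T x)) := tendsto_finsetSum _ fun v hv => hx2 v hv
      have h7 := (tendsto_order.mp h6).2 _ hcon
      have h8 := (tendsto_order.mp hclose).2 (δ / 4) (by positivity)
      filter_upwards [hx1, h7, h8] with N hN1 hN2 hN3
      refine hN1.trans ?_
      have e : (bx k N fun n => errb Φ ℓ R H S (q n) x) =
          ∑ v ∈ S, (bx k N fun n => |H v (Φ (q n v) x)|) +
          ∑ v ∈ S, ∑ w ∈ S.erase v, bx k N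
            (fun n => if |ℓ (q n v) - ℓ (q n w)| < R then (1 : ℝ) else 0) := by
        unfold errb
        rw [bx_add, bx_sum, bx_sum]
        congr 1
        refine Finset.sum_congr rfl fun v _ => ?_
        rw [bx_sum]
      rw [e]
      linarith
    have h10 : μ {x | ¬ ∀ᶠ N : Fin k → ℕ in atTop,
        |bx k N fun n => c n * ∏ v, F v (Φ (q n v) x)| ≤ δ} ≤ μ {x | δ / 4 ≤ T x} :=
      measure_mono_ae hsub
    refine h10.trans ?_
    have h9 : μ {x | δ / 4 ≤ T x} = ENNReal.ofReal (μ.real {x | δ / 4 ≤ T x}) := by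
      rw [measureReal_def, ENNReal.ofReal_toReal (measure_ne_top _ _)]
    rw [h9]
    calc ENNReal.ofReal (μ.real {x | δ / 4 ≤ T x}) ≤ ENNReal.ofReal (ε : ℝ) :=
          ENNReal.ofReal_le_ofReal hmark'
      _ = ε := ENNReal.ofReal_coe_nnreal
  have hall := ae_all_iff.mpr fun i : ℕ => hbad (1 / ((i : ℝ) + 1)) (by positivity)
  filter_upwards [hall] with x hx
  rw [Metric.tendsto_nhds]
  intro ε hε
  obtain ⟨i, hi⟩ := exists_nat_one_div_lt hε
  filter_upwards [hx i] with N hN
  rw [Real.dist_eq, sub_zero]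
  exact hN.trans_lt hi

end real

section cz

variable {X : Type*} [MeasurableSpace X] {J : Type*} [Fintype J] [DecidableEq J] {k : ℕ}

/-- convergence to zero -/
def CzW (c : (Fin k → ℕ) → ℝ) (μ : Measure X) (g : J → (Fin k → ℕ) → X → X) (F : J → X → ℂ) :
    Prop :=
  ∀ᵐ x ∂μ, Tendsto (fun N => bxc k N fun m => (c m : ℂ) * ∏ j, F j (g j m x)) atTop (𝓝 0)

theorem CzW_add {c : (Fin k → ℕ) → ℝ} {μ : Measure X} {g : J → (Fin k → ℕ) → X → X} {F : J → X → ℂ} {j : J}
    {f f' : X → ℂ}
    (hf : CzW c μ g (Function.update F j f)) (hg : CzW c μ g (Function.update F j f')) :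
    CzW c μ g (Function.update F j (f + f')) := by
  filter_upwards [hf, hg] with x hx hx'
  have h := hx.add hx'
  rw [add_zero] at h
  refine h.congr fun N => ?_
  rw [← bxc_add]
  congr 1
  funext n
  rw [prod_update, prod_update, prod_update, Pi.add_apply, add_mul, mul_add]

theorem CzW_smul {c : (Fin k → ℕ) → ℝ} {μ : Measure X} {g : J → (Fin k → ℕ) → X → X} {F : J → X → ℂ} {j : J}
    {f : X → ℂ} (a : ℂ) (hf : CzW c μ g (Function.update F j f)) :
    CzW c μ g (Function.update F j (a • f)) := by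
  filter_upwards [hf] with x hx
  have h := hx.const_mul a
  rw [mul_zero] at h
  refine h.congr fun N => ?_
  rw [← bxc_mul]
  congr 1
  funext n
  rw [prod_update, prod_update, Pi.smul_apply, smul_eq_mul]
  ring

theorem CzW_closed {c : (Fin k → ℕ) → ℝ} (hc : ∀ n, |c n| ≤ 1) {μ : Measure X} [IsProbabilityMeasure μ] {g : J → (Fin k → ℕ) → X → X}
    (hg : ∀ j m, MeasurePreserving (g j m) μ μ) (hgood : ∀ j, Good1 μ (g j))
    {F : J → X → ℂ} (hF : ∀ l, BM (F l)) {j : J} {f : X → ℂ} (hf : BM f)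
    (h : ∀ ε : ℝ, 0 < ε → ∃ f' : X → ℂ, BM f' ∧ ∫ x, ‖f x - f' x‖ ∂μ ≤ ε ∧
      CzW c μ g (Function.update F j f')) :
    CzW c μ g (Function.update F j f) := by
  obtain ⟨hfm, Cf, hCf⟩ := hf
  choose hFm CF hCF using hF
  set D : ℝ := ∏ l ∈ Finset.univ.erase j, (|CF l| + 1) with hD
  have hD0 : 0 < D := Finset.prod_pos fun l _ => by positivity
  have hDb : ∀ (m : Fin k → ℕ) (x : X),
      ‖∏ l ∈ Finset.univ.erase j, F l (g l m x)‖ ≤ D := by
    intro m x
    rw [norm_prod]
    apply Finset.prod_le_prod (fun l _ => norm_nonneg _)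
    intro l _
    exact ((hCF l _).trans (le_abs_self _)).trans (by linarith)
  set G := Function.update F j f with hG
  let Av : (J → X → ℂ) → (Fin k → ℕ) → X → ℂ :=
    fun E N x => bxc k N (fun m => (c m : ℂ) * ∏ l, E l (g l m x))
  have hbad : ∀ δ : ℝ, 0 < δ → ∀ᵐ x ∂μ, ∀ᶠ N in atTop, ‖Av G N x‖ ≤ δ := by
    intro δ hδ
    rw [ae_iff, ← nonpos_iff_eq_zero]
    apply ENNReal.le_of_forall_pos_le_add
    intro ε hε _
    rw [zero_add]
    have hε' : (0 : ℝ) < ε := by exact_mod_cast hε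
    obtain ⟨f', ⟨hgm, Cg, hCg⟩, hfg, hcv⟩ := h (ε * (δ / (4 * D))) (by positivity)
    let K : X → ℝ := fun x => ‖f x - f' x‖
    have hKm : Measurable K := (hfm.sub hgm).norm
    have hKb : ∀ x, |K x| ≤ |Cf + Cg| := fun x => by
      show |‖f x - f' x‖| ≤ _
      rw [abs_of_nonneg (norm_nonneg _)]
      exact ((norm_sub_le _ _).trans (add_le_add (hCf x) (hCg x))).trans (le_abs_self _)
    have hB := hgood j K hKm ⟨_, hKb⟩
    let E : X → ℝ := fun x => limUnder atTop (fun N => bx k N fun m => K (g j m x))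
    have hE : ∀ᵐ x ∂μ, Tendsto (fun N => bx k N fun m => K (g j m x)) atTop (𝓝 (E x)) := by
      filter_upwards [hB] with x hx
      exact tendsto_nhds_limUnder hx
    obtain ⟨hE0, hEi, hEint⟩ := int_lim_le' (hg j) hKm (abs_nonneg _) hKb
      (fun x => norm_nonneg _) hE
    have hmark := mul_meas_ge_le_integral_of_nonneg hE0 hEi (δ / (4 * D))
    have hmark' : μ.real {x | δ / (4 * D) ≤ E x} ≤ ε := by
      have h1 : δ / (4 * D) * μ.real {x | δ / (4 * D) ≤ E x} ≤ δ / (4 * D) * ε := by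
        refine hmark.trans ((hEint.trans hfg).trans ?_)
        rw [mul_comm]
      exact le_of_mul_le_mul_left h1 (by positivity)
    have hsub : ∀ᵐ x ∂μ, x ∈ {x | ¬ ∀ᶠ N in atTop, ‖Av G N x‖ ≤ δ} →
        x ∈ {x | δ / (4 * D) ≤ E x} := by
      filter_upwards [hE, hcv] with x hx1 hx2 hx3
      show δ / (4 * D) ≤ E x
      by_contra hcon
      rw [not_le] at hcon
      apply hx3
      have h2 := (tendsto_order.mp hx1).2 _ hcon
      have hx2' := hx2.norm
      rw [norm_zero] at hx2'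
      have h3 := (tendsto_order.mp hx2').2 (δ / 4) (by positivity)
      filter_upwards [h2, h3] with N hN1 hN2
      have hclose : ‖Av G N x - Av (Function.update F j f') N x‖ ≤ δ / 4 := by
        show ‖bxc k N (fun m => (c m : ℂ) * ∏ l, G l (g l m x)) -
          bxc k N (fun m => (c m : ℂ) * ∏ l, (Function.update F j f') l (g l m x))‖ ≤ δ / 4
        rw [← bxc_sub]
        refine (bxc_norm _ _ _).trans ?_
        have h3 : ∀ m, ‖(c m : ℂ) * ∏ l, G l (g l m x) -
            (c m : ℂ) * ∏ l, (Function.update F j f') l (g l m x)‖ ≤ D * K (g j m x) := by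
          intro m
          rw [← mul_sub, norm_mul, Complex.norm_real, Real.norm_eq_abs]
          refine (mul_le_of_le_one_left (norm_nonneg _) (hc m)).trans ?_
          rw [hG, prod_update, prod_update, ← sub_mul, norm_mul, mul_comm]
          exact mul_le_mul_of_nonneg_right (hDb _ x) (norm_nonneg _)
        refine (bx_mono h3).trans ?_
        rw [bx_mul]
        calc D * bx k N (fun m => K (g j m x)) ≤ D * (δ / (4 * D)) :=
              mul_le_mul_of_nonneg_left hN1.le hD0.le
          _ = δ / 4 := by field_simp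
      have e1 : Av G N x = (Av G N x - Av (Function.update F j f') N x) +
          Av (Function.update F j f') N x := by ring
      rw [e1]
      have b1 := norm_add_le (Av G N x - Av (Function.update F j f') N x)
        (Av (Function.update F j f') N x)
      have b2 : ‖Av (Function.update F j f') N x‖ < δ / 4 := hN2
      linarith
    have h10 : μ {x | ¬ ∀ᶠ N in atTop, ‖Av G N x‖ ≤ δ} ≤ μ {x | δ / (4 * D) ≤ E x} :=
      measure_mono_ae hsub
    refine h10.trans ?_
    have h9 : μ {x | δ / (4 * D) ≤ E x} = ENNReal.ofReal (μ.real {x | δ / (4 * D) ≤ E x}) := by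
      rw [measureReal_def, ENNReal.ofReal_toReal (measure_ne_top _ _)]
    rw [h9]
    calc ENNReal.ofReal (μ.real {x | δ / (4 * D) ≤ E x}) ≤ ENNReal.ofReal (ε : ℝ) :=
          ENNReal.ofReal_le_ofReal hmark'
      _ = ε := ENNReal.ofReal_coe_nnreal
  have hall := ae_all_iff.mpr fun i : ℕ => hbad (1 / ((i : ℝ) + 1)) (by positivity)
  filter_upwards [hall] with x hx
  rw [Metric.tendsto_nhds]
  intro ε hε
  obtain ⟨i, hi⟩ := exists_nat_one_div_lt hε
  filter_upwards [hx i] with N hN
  rw [dist_eq_norm, sub_zero]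
  exact hN.trans_lt hi

end cz

section complex

variable {X : Type*} {mA mY mX : MeasurableSpace X} {μ : Measure X} [IsProbabilityMeasure μ]
variable {G : Type*} [Group G]
variable {Φ : G →* Equiv.Perm X} {ℓ : G → ℝ}
variable {J : Type*} [DecidableEq J] [Fintype J] {k : ℕ}

theorem zero_realW (hk : 0 < k) (hK : KExt μ mA mY Φ ℓ) {s₀ : G} (hs₀ : 0 < ℓ s₀)
    {S : Finset J} {q : (Fin k → ℕ) → J → G} {lam : J → ℝ} {θ : J → Fin k → ℝ}
    (hq : ∀ n v, ℓ (q n v) = pos lam θ n v)
    (h1 : ∀ v ∈ S, ∀ l, θ v l = 0 → ∀ n t, q (Function.update n l t) v = q n v)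
    (h2 : ∀ l, ∃ v ∈ S, θ v l ≠ 0)
    (h3 : ∀ v ∈ S, ∀ w ∈ S, v ≠ w → ∃ l, θ v l ≠ θ w l)
    (hgood : ∀ v, Good1 μ fun n => (Φ (q n v) : X → X))
    {f : J → X → ℝ} (hf : ∀ v, Adm μ mA mY Φ S v (f v))
    {c : (Fin k → ℕ) → ℝ} (hc : ∀ n, |c n| ≤ 1) :
    ∀ᵐ x ∂μ, Tendsto (fun N => bx k N fun n => c n * ∏ v, f v (Φ (q n v) x)) atTop (𝓝 0) := by
  classical
  have hr' : ∀ v : J, ∃ r : G, v ∈ S → Measurable[cm mA Φ r] (f v) := by
    intro v
    by_cases hv : v ∈ S
    · obtain ⟨⟨r, hr⟩, _⟩ := (hf v).2.1 hv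
      exact ⟨r, fun _ => hr⟩
    · exact ⟨1, fun h => absurd h hv⟩
  choose r₀ hr₀ using hr'
  obtain ⟨r, hr⟩ := exists_upper hK.filt hs₀ r₀
  have hFm : ∀ v ∈ S, Measurable[cm mA Φ r] (f v) := fun v hv =>
    (hr₀ v hv).mono (cm_mono hK.filt (hr v)) le_rfl
  have hFmX : ∀ v ∈ S, Measurable (f v) := fun v hv =>
    (hFm v hv).mono (cm_le hK.fl hK.filt r) le_rfl
  refine box_zeroW hk hK.fl hK.filt hK.base hq h1 h2 h3 (fun v _ => hgood v) hFm
    (fun v => (hf v).1)
    (fun v hv => (hf v).2.2 hv) (fun ε hε => ?_) hc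
  have hs' : ∀ v : J, ∃ s₁ : G, v ∈ S → ∀ s : G, ℓ s ≤ ℓ s₁ →
      ∫ x, |(μ[f v | cm mA Φ s]) x| ∂μ ≤ ε := by
    intro v
    by_cases hv : v ∈ S
    · obtain ⟨s₁, hs₁⟩ := small_past' hK.fl hK.filt hs₀ hK.tail (hFmX v hv) (hf v).1
        ((hf v).2.1 hv).2 hε
      exact ⟨s₁, fun _ => hs₁⟩
    · exact ⟨1, fun h => absurd h hv⟩
  choose s₁ hs₁ using hs'
  obtain ⟨s₂, hs₂⟩ := exists_lower hK.filt hs₀ s₁
  obtain ⟨s, hs⟩ := exists_lower (J := Bool) hK.filt hs₀ (fun b => if b then s₂ else r)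
  have hss₂ : ℓ s ≤ ℓ s₂ := hs true
  have hsr : ℓ s ≤ ℓ r := hs false
  have hG' : ∀ v : J, ∃ g : X → ℝ, v ∈ S → (CE μ (cm mA Φ s) (f v) g ∧
      g =ᵐ[μ] μ[f v | cm mA Φ s]) := by
    intro v
    by_cases hv : v ∈ S
    · obtain ⟨g, hg⟩ := exists_CE (cm_le hK.fl hK.filt s) (hFmX v hv) (hf v).1 (μ := μ)
      exact ⟨g, fun _ => hg⟩
    · exact ⟨0, fun h => absurd h hv⟩
  choose G hG using hG'
  refine ⟨s, hsr, G, fun v hv => (hG v hv).1, fun v hv => ?_⟩
  have e : ∫ x, |G v x| ∂μ = ∫ x, |(μ[f v | cm mA Φ s]) x| ∂μ := by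
    apply integral_congr_ae
    filter_upwards [(hG v hv).2] with x hx
    rw [hx]
  rw [e]
  exact hs₁ v hv s (hss₂.trans (hs₂ v))

/-- **Convergence to zero.** -/
theorem zero_complexW (hk : 0 < k) (hK : KExt μ mA mY Φ ℓ) {s₀ : G} (hs₀ : 0 < ℓ s₀)
    {S : Finset J} {q : (Fin k → ℕ) → J → G} {lam : J → ℝ} {θ : J → Fin k → ℝ}
    (hq : ∀ n v, ℓ (q n v) = pos lam θ n v)
    (h1 : ∀ v ∈ S, ∀ l, θ v l = 0 → ∀ n t, q (Function.update n l t) v = q n v)
    (h2 : ∀ l, ∃ v ∈ S, θ v l ≠ 0)
    (h3 : ∀ v ∈ S, ∀ w ∈ S, v ≠ w → ∃ l, θ v l ≠ θ w l)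
    (hgood : ∀ v, Good1 μ fun n => (Φ (q n v) : X → X))
    {F : J → X → ℂ} (hF : ∀ v, AdmC μ mY S v (F v))
    {c : (Fin k → ℕ) → ℝ} (hc : ∀ n, |c n| ≤ 1) :
    CzW c μ (fun v n => (Φ (q n v) : X → X)) F := by
  classical
  set g : J → (Fin k → ℕ) → X → X := fun v n => (Φ (q n v) : X → X) with hg
  have key : ∀ (B : Finset J) (F : J → X → ℂ), (∀ v ∈ B, AdmC μ mY S v (F v)) →
      (∀ v ∉ B, ∃ f : X → ℝ, Adm μ mA mY Φ S v f ∧ F v = fun x => (f x : ℂ)) → CzW c μ g F := by
    intro B
    induction B using Finset.induction_on with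
    | empty =>
      intro F _ hF2
      choose f hf hFf using fun v => hF2 v (Finset.notMem_empty v)
      have h4 := zero_realW hk hK hs₀ hq h1 h2 h3 hgood hf hc
      filter_upwards [h4] with x hx
      have h5 := (Complex.continuous_ofReal.tendsto _).comp hx
      rw [Complex.ofReal_zero] at h5
      refine h5.congr fun N => ?_
      rw [Function.comp_apply, ← bxc_cast]
      congr 1
      funext n
      push_cast
      congr 1
      refine Finset.prod_congr rfl fun v _ => ?_
      rw [hFf v]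
    | insert v B hv ih =>
      intro F hF1 hF2
      have hBMall : ∀ w, BM (F w) := by
        intro w
        by_cases hw : w ∈ insert v B
        · exact (hF1 w hw).1
        · obtain ⟨f, hf, e⟩ := hF2 w hw
          rw [e]
          exact hf.bm hK
      have hcast : ∀ f : X → ℝ, Adm μ mA mY Φ S v f →
          CzW c μ g (Function.update F v fun x => (f x : ℂ)) := by
        intro f hf
        apply ih
        · intro w hw
          have hwv : w ≠ v := fun e => hv (e ▸ hw)
          rw [Function.update_of_ne hwv]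
          exact hF1 w (Finset.mem_insert_of_mem hw)
        · intro w hw
          by_cases hwv : w = v
          · subst hwv
            exact ⟨f, hf, by rw [Function.update_self]⟩
          · rw [Function.update_of_ne hwv]
            apply hF2
            intro hmem
            rcases Finset.mem_insert.mp hmem with h5 | h5
            · exact hwv h5
            · exact hw h5
      have hcomb : ∀ (C : ℝ) (f₁ f₂ : X → ℝ), Adm μ mA mY Φ S v f₁ → Adm μ mA mY Φ S v f₂ →
          CzW c μ g (Function.update F v (((C : ℂ) • fun x => (f₁ x : ℂ)) +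
            ((C : ℂ) * Complex.I) • fun x => (f₂ x : ℂ))) := by
        intro C f₁ f₂ hf₁ hf₂
        exact CzW_add (CzW_smul _ (hcast f₁ hf₁)) (CzW_smul _ (hcast f₂ hf₂))
      obtain ⟨hBM, hSv, hSv'⟩ := hF1 v (Finset.mem_insert_self v B)
      obtain ⟨hFm, C₀, hC₀⟩ := hBM
      set C : ℝ := |C₀| + 1 with hC
      have hCpos : 0 < C := by positivity
      have hCb : ∀ x, ‖F v x‖ ≤ C := fun x =>
        ((hC₀ x).trans (le_abs_self _)).trans (by rw [hC]; linarith)
      set f₁ : X → ℝ := fun x => (F v x).re / C with hf₁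
      set f₂ : X → ℝ := fun x => (F v x).im / C with hf₂
      have hb₁ : ∀ x, |f₁ x| ≤ 1 := by
        intro x
        rw [hf₁]
        show |(F v x).re / C| ≤ 1
        rw [abs_div, abs_of_pos hCpos, div_le_one hCpos]
        exact (Complex.abs_re_le_norm _).trans (hCb x)
      have hb₂ : ∀ x, |f₂ x| ≤ 1 := by
        intro x
        rw [hf₂]
        show |(F v x).im / C| ≤ 1
        rw [abs_div, abs_of_pos hCpos, div_le_one hCpos]
        exact (Complex.abs_im_le_norm _).trans (hCb x)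
      have hm₁ : Measurable f₁ := (Complex.measurable_re.comp hFm).div_const _
      have hm₂ : Measurable f₂ := (Complex.measurable_im.comp hFm).div_const _
      have hdec : ∀ x, F v x = (C : ℂ) * (f₁ x : ℂ) + (C : ℂ) * Complex.I * (f₂ x : ℂ) := by
        intro x
        have hC' : (C : ℂ) ≠ 0 := by exact_mod_cast hCpos.ne'
        rw [hf₁, hf₂]
        push_cast
        field_simp
        exact (Complex.re_add_im (F v x)).symm.trans (by ring)
      have hgoal : CzW c μ g (Function.update F v (F v)) := by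
        by_cases hvS : v ∈ S
        · have hFi : Integrable (F v) μ := Integrable.of_bound hFm.aestronglyMeasurable C
            (Eventually.of_forall hCb)
          have hV₁ : Van μ mY f₁ := by
            intro B hB
            have h4 := hSv hvS B hB
            have h5 : ∫ x in B, f₁ x ∂μ = (∫ x in B, F v x ∂μ).re / C := by
              rw [hf₁, integral_div]
              congr 1
              exact integral_re hFi.integrableOn
            rw [h5, h4]
            simp
          have hV₂ : Van μ mY f₂ := by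
            intro B hB
            have h4 := hSv hvS B hB
            have h5 : ∫ x in B, f₂ x ∂μ = (∫ x in B, F v x ∂μ).im / C := by
              rw [hf₂, integral_div]
              congr 1
              exact integral_im hFi.integrableOn
            rw [h5, h4]
            simp
          refine CzW_closed hc (fun w n => hK.fl _) hgood hBMall ⟨hFm, C, hCb⟩ ?_
          intro ε hε
          have happ : ∀ f : X → ℝ, Measurable f → (∀ x, |f x| ≤ 1) → Van μ mY f →
              ∃ g' : X → ℝ, Adm μ mA mY Φ S v g' ∧ ∫ x, |f x - g' x| ∂μ ≤ ε / (2 * C) := by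
            intro f hfm hfb hfV
            obtain ⟨r, hr⟩ := dense_future hK.fl hK.filt hs₀ hK.gen hfm hfb
              (show (0 : ℝ) < ε / (2 * C) by positivity)
            obtain ⟨g', hg', hge⟩ := exists_CE (cm_le hK.fl hK.filt r) hfm hfb (μ := μ)
            refine ⟨g', ⟨hg'.2.1, fun _ => ⟨⟨r, hg'.1⟩, van_CE (cm_le hK.fl hK.filt r)
              (base_le hK.base r) hfm hfb hg' hfV⟩, fun h => absurd hvS h⟩, ?_⟩
            refine le_trans (le_of_eq ?_) hr
            apply integral_congr_ae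
            filter_upwards [hge] with x hx
            rw [hx]
          obtain ⟨g₁, hg₁, hg₁'⟩ := happ f₁ hm₁ hb₁ hV₁
          obtain ⟨g₂, hg₂, hg₂'⟩ := happ f₂ hm₂ hb₂ hV₂
          obtain ⟨hg₁m, -⟩ := hg₁.bm hK
          obtain ⟨hg₂m, -⟩ := hg₂.bm hK
          have hg₁r : Measurable g₁ := by
            have := Complex.measurable_re.comp hg₁m
            exact this
          have hg₂r : Measurable g₂ := by
            have := Complex.measurable_re.comp hg₂m
            exact this
          refine ⟨((C : ℂ) • fun x => (g₁ x : ℂ)) + ((C : ℂ) * Complex.I) • fun x => (g₂ x : ℂ),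
            ⟨(hg₁m.const_smul _).add (hg₂m.const_smul _), 2 * C, fun x => ?_⟩, ?_,
            hcomb C g₁ g₂ hg₁ hg₂⟩
          · simp only [Pi.add_apply, Pi.smul_apply, smul_eq_mul]
            refine (norm_add_le _ _).trans ?_
            rw [norm_mul, norm_mul, norm_mul, Complex.norm_I, Complex.norm_real,
              Complex.norm_real, Complex.norm_real, Real.norm_of_nonneg hCpos.le,
              Real.norm_eq_abs, Real.norm_eq_abs]
            have a1 := hg₁.1 x
            have a2 := hg₂.1 x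
            nlinarith [abs_nonneg (g₁ x), abs_nonneg (g₂ x)]
          · have hi₁ : Integrable (fun x => |f₁ x - g₁ x|) μ := by
              refine Integrable.of_bound (hm₁.sub hg₁r).abs.aestronglyMeasurable 2
                (Eventually.of_forall fun x => ?_)
              rw [Real.norm_eq_abs, abs_abs]
              exact (abs_sub _ _).trans (by linarith [hb₁ x, hg₁.1 x])
            have hi₂ : Integrable (fun x => |f₂ x - g₂ x|) μ := by
              refine Integrable.of_bound (hm₂.sub hg₂r).abs.aestronglyMeasurable 2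
                (Eventually.of_forall fun x => ?_)
              rw [Real.norm_eq_abs, abs_abs]
              exact (abs_sub _ _).trans (by linarith [hb₂ x, hg₂.1 x])
            have hle : ∀ x, ‖F v x - (((C : ℂ) • fun x => (g₁ x : ℂ)) +
                ((C : ℂ) * Complex.I) • fun x => (g₂ x : ℂ)) x‖ ≤
                C * |f₁ x - g₁ x| + C * |f₂ x - g₂ x| := by
              intro x
              simp only [Pi.add_apply, Pi.smul_apply, smul_eq_mul]
              rw [hdec x]
              have e : (C : ℂ) * (f₁ x : ℂ) + (C : ℂ) * Complex.I * (f₂ x : ℂ) -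
                  ((C : ℂ) * (g₁ x : ℂ) + (C : ℂ) * Complex.I * (g₂ x : ℂ)) =
                  (C : ℂ) * ((f₁ x - g₁ x : ℝ) : ℂ) +
                    (C : ℂ) * Complex.I * ((f₂ x - g₂ x : ℝ) : ℂ) := by
                push_cast
                ring
              rw [e]
              refine (norm_add_le _ _).trans ?_
              rw [norm_mul, norm_mul, norm_mul, Complex.norm_I, Complex.norm_real,
                Complex.norm_real, Complex.norm_real, Real.norm_of_nonneg hCpos.le,
                Real.norm_eq_abs, Real.norm_eq_abs, mul_one]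
            refine (integral_mono_of_nonneg (Eventually.of_forall fun x => norm_nonneg _)
              ((hi₁.const_mul C).add (hi₂.const_mul C)) (Eventually.of_forall hle)).trans ?_
            rw [integral_add' (hi₁.const_mul C) (hi₂.const_mul C), integral_const_mul,
              integral_const_mul]
            calc C * ∫ x, |f₁ x - g₁ x| ∂μ + C * ∫ x, |f₂ x - g₂ x| ∂μ ≤
                C * (ε / (2 * C)) + C * (ε / (2 * C)) :=
                  add_le_add (mul_le_mul_of_nonneg_left hg₁' hCpos.le)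
                    (mul_le_mul_of_nonneg_left hg₂' hCpos.le)
              _ = ε := by field_simp; norm_num
        · have hFY := hSv' hvS
          have a₁ : Adm μ mA mY Φ S v f₁ := ⟨hb₁, fun h => absurd h hvS, fun _ =>
            (Complex.measurable_re.comp hFY).div_const _⟩
          have a₂ : Adm μ mA mY Φ S v f₂ := ⟨hb₂, fun h => absurd h hvS, fun _ =>
            (Complex.measurable_im.comp hFY).div_const _⟩
          have e : F v = ((C : ℂ) • fun x => (f₁ x : ℂ)) +
              ((C : ℂ) * Complex.I) • fun x => (f₂ x : ℂ) := by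
            funext x
            simp only [Pi.add_apply, Pi.smul_apply, smul_eq_mul]
            exact hdec x
          have h6 := hcomb C f₁ f₂ a₁ a₂
          rw [← e] at h6
          exact h6
      rwa [Function.update_eq_self] at hgoal
  exact key Finset.univ F (fun v _ => hF v) fun v hv => absurd (Finset.mem_univ v) hv

end complex

end Run7.h694.BT
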