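import Pool.Agent.Run7.h694.BT.K

/-! Kolmogorov extensions: the base is characteristic, jointly with a further system (helper694). -/

set_option autoImplicit false
set_option linter.unusedSectionVars false

open MeasureTheory Filter Topology
open scoped ENNReal

noncomputable section

namespace Run7.h694.BT

open Pool.Agent.W761.Box (bx bxc BM Good1 bxc_add bxc_sub bxc_mul dz orb orb_mp bxc_bound)
open Pool.Agent.TH784.KE
open Pool.Agent.TH739.PB (lin orb_lin)

section

variable {X Z G : Type} {mA mY mX : MeasurableSpace X} {μ : Measure X} [IsProbabilityMeasure μ]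
  [MeasurableSpace Z] {P : Measure Z} [IsProbabilityMeasure P] [Group G]
  {Φ : G →* Equiv.Perm X} {ℓ : G → ℝ} {k r : ℕ}

theorem ell_lin (h1 : ℓ 1 = 0) (h : ∀ a b, ℓ (a * b) = ℓ a + ℓ b) : ∀ (k : ℕ) (u : Fin k → G)
    (n : Fin k → ℕ), ℓ (lin u n) = ∑ l, n l • ℓ (u l)
  | 0, u, n => by
    simp [lin, h1]
  | k + 1, u, n => by
    have ih := ell_lin h1 h k (Fin.tail u) (Fin.tail n)
    have hp : ∀ (a : G) (n : ℕ), ℓ (a ^ n) = n • ℓ a := by
      intro a n
      induction n with
      | zero => simp [h1]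
      | succ n ih => rw [pow_succ, h, ih, succ_nsmul]
    rw [Fin.sum_univ_succ]
    have e : lin u n = u 0 ^ n 0 * lin (Fin.tail u) (Fin.tail n) := by
      unfold lin
      rw [List.ofFn_succ, List.prod_cons]
      rfl
    rw [e, h, hp, ih]
    rfl

theorem good_lin1 (hFl : Flow μ Φ) (u : Fin k → G) :
    Good1 μ (fun n : Fin k → ℕ => (Φ (lin u n) : X → X)) := by
  intro H hH hb
  obtain ⟨C, hC⟩ := hb
  have h1 := dz k (fun l => (Φ (u l) : X → X)) (fun _ => hFl _) H hH C hC
  filter_upwards [h1] with x hx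
  obtain ⟨L, hL⟩ := hx
  refine ⟨L, hL.congr fun N => ?_⟩
  congr 1
  funext m
  rw [orb_lin]

/-- **The base is characteristic**, jointly with a further system. -/
theorem kolm (hk : 0 < k) (hK : KExt μ mA mY Φ ℓ) {v : Fin r → Fin k → G}
    (hv0 : ∀ j l, ℓ (v j l) ≠ 0) (hv : ∀ i j, i ≠ j → ∃ l, ℓ (v i l) ≠ ℓ (v j l))
    {σ : Fin k → Z → Z} (hσ : ∀ l, MeasurePreserving (σ l) P P) {f : Z → ℝ} (hf : Measurable f)
    {C : ℝ} (hfb : ∀ z, |f z| ≤ C) {F E : Fin r → X → ℂ} (hF : ∀ j, @BM X mX (F j))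
    (hE : ∀ j, @BM X mX (E j)) (hEY : ∀ j, Measurable[mY] (E j))
    (hFE : ∀ j, ∀ B : Set X, MeasurableSet[mY] B → ∫ x in B, (F j x - E j x) ∂μ = 0) :
    ∀ᵐ p ∂(μ.prod P), Tendsto (fun N => bxc k N fun n =>
      (∏ j, F j (Φ (lin (v j) n) p.1) - ∏ j, E j (Φ (lin (v j) n) p.1)) *
        (f (orb k σ n p.2) : ℂ)) atTop (𝓝 0) := by
  classical
  set D : ℝ := |C| + 1 with hD
  have hD0 : 0 < D := by positivity
  have hfD : ∀ z, |f z / D| ≤ 1 := by
    intro z
    rw [abs_div, abs_of_pos hD0, div_le_one hD0]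
    exact ((hfb z).trans (le_abs_self _)).trans (by rw [hD]; linarith)
  -- for fixed weights
  have key : ∀ c : (Fin k → ℕ) → ℝ, (∀ n, |c n| ≤ 1) → ∀ᵐ x ∂μ, Tendsto (fun N => bxc k N fun n =>
      (c n : ℂ) * (∏ j, F j (Φ (lin (v j) n) x) - ∏ j, E j (Φ (lin (v j) n) x))) atTop (𝓝 0) := by
    intro c hc
    have key1 : ∀ t : Finset (Fin r), t ≠ ∅ → ∀ᵐ x ∂μ, Tendsto (fun N => bxc k N fun n =>
        (c n : ℂ) * ((∏ j ∈ t, (F j (Φ (lin (v j) n) x) - E j (Φ (lin (v j) n) x))) *
          ∏ j ∈ Finset.univ \ t, E j (Φ (lin (v j) n) x))) atTop (𝓝 0) := by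
      intro t ht
      obtain ⟨j₀, hj₀⟩ := Finset.nonempty_of_ne_empty ht
      obtain ⟨s₀, hs₀⟩ : ∃ s₀ : G, 0 < ℓ s₀ := by
        rcases lt_or_gt_of_ne (hv0 j₀ ⟨0, hk⟩) with h | h
        · exact ⟨(v j₀ ⟨0, hk⟩)⁻¹, by rw [hK.filt.inv]; linarith⟩
        · exact ⟨v j₀ ⟨0, hk⟩, h⟩
      have hz := zero_complexW (k := k) (S := t) (q := fun n j => lin (v j) n) (lam := fun _ => 0)
        (θ := fun j l => ℓ (v j l)) hk hK hs₀
        (fun n j => by
          unfold pos
          rw [zero_add]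
          exact ell_lin hK.filt.one hK.filt.hom k (v j) n)
        (fun j _ l h => absurd h (hv0 j l)) (fun l => ⟨j₀, hj₀, hv0 j₀ l⟩)
        (fun i _ j _ hij => hv i j hij) (fun j => good_lin1 hK.fl (v j))
        (F := fun j => if j ∈ t then (fun x => F j x - E j x) else E j) (fun j => by
          by_cases hj : j ∈ t
          · simp only [hj, if_true]
            obtain ⟨m₁, C₁, b₁⟩ := hF j
            obtain ⟨m₂, C₂, b₂⟩ := hE j
            exact ⟨⟨m₁.sub m₂, C₁ + C₂, fun x => (norm_sub_le _ _).trans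
              (add_le_add (b₁ x) (b₂ x))⟩, fun _ => hFE j, fun h => absurd hj h⟩
          · simp only [hj, if_false]
            exact ⟨hE j, fun h => absurd h hj, fun _ => hEY j⟩) hc
      filter_upwards [hz] with x hx
      refine hx.congr fun N => ?_
      congr 1
      funext n
      congr 1
      rw [← Finset.prod_mul_prod_compl t, ← Finset.compl_eq_univ_sdiff]
      congr 1
      · refine Finset.prod_congr rfl fun j hj => ?_
        rw [if_pos hj]
      · refine Finset.prod_congr rfl fun j hj => ?_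
        rw [if_neg (Finset.mem_compl.1 hj)]
    have hall : ∀ᵐ x ∂μ, ∀ t : Finset (Fin r), t ≠ ∅ → Tendsto (fun N => bxc k N fun n =>
        (c n : ℂ) * ((∏ j ∈ t, (F j (Φ (lin (v j) n) x) - E j (Φ (lin (v j) n) x))) *
          ∏ j ∈ Finset.univ \ t, E j (Φ (lin (v j) n) x))) atTop (𝓝 0) := by
      rw [ae_all_iff]
      intro t
      by_cases ht : t = ∅
      · exact Eventually.of_forall fun x h => absurd ht h
      · filter_upwards [key1 t ht] with x hx _
        exact hx
    filter_upwards [hall] with x hx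
    have hsum := tendsto_finsetSum ((Finset.univ : Finset (Fin r)).powerset.erase ∅) fun t ht =>
      hx t (Finset.ne_of_mem_erase ht)
    rw [Finset.sum_const_zero] at hsum
    refine hsum.congr fun N => ?_
    rw [← bxc_sum]
    congr 1
    funext n
    rw [← Finset.mul_sum]
    congr 1
    have h1 := Finset.prod_add (fun j => F j (Φ (lin (v j) n) x) - E j (Φ (lin (v j) n) x))
      (fun j => E j (Φ (lin (v j) n) x)) (Finset.univ : Finset (Fin r))
    have h2 : ∏ j, (F j (Φ (lin (v j) n) x) - E j (Φ (lin (v j) n) x) +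
        E j (Φ (lin (v j) n) x)) = ∏ j, F j (Φ (lin (v j) n) x) :=
      Finset.prod_congr rfl fun j _ => by ring
    rw [h2, ← Finset.add_sum_erase _ _ (Finset.empty_mem_powerset _)] at h1
    rw [h1, Finset.prod_empty, one_mul, Finset.sdiff_empty]
    ring
  -- Fubini
  have hm : MeasurableSet {p : X × Z | Tendsto (fun N => bxc k N fun n =>
      (∏ j, F j (Φ (lin (v j) n) p.1) - ∏ j, E j (Φ (lin (v j) n) p.1)) *
        (f (orb k σ n p.2) : ℂ)) atTop (𝓝 0)} := by
    refine measurableSet_tendsto (𝓝 0) fun N => ?_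
    unfold Pool.Agent.W761.Box.bxc
    refine (Finset.measurable_fun_sum _ fun n _ => Measurable.mul ?_ ?_).const_mul _
    · exact (Finset.measurable_fun_prod _ fun j _ =>
        ((hF j).1.comp (hK.fl _).measurable).comp measurable_fst).sub
        (Finset.measurable_fun_prod _ fun j _ =>
        ((hE j).1.comp (hK.fl _).measurable).comp measurable_fst)
    · exact Complex.measurable_ofReal.comp ((hf.comp (orb_mp k σ hσ n).measurable).comp
        measurable_snd)
  rw [Measure.ae_prod_iff_ae_ae hm]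
  rw [Measure.ae_ae_comm (p := fun x z => Tendsto (fun N => bxc k N fun n =>
      (∏ j, F j (Φ (lin (v j) n) x) - ∏ j, E j (Φ (lin (v j) n) x)) *
        (f (orb k σ n z) : ℂ)) atTop (𝓝 0)) hm]
  refine Eventually.of_forall fun z => ?_
  filter_upwards [key (fun n => f (orb k σ n z) / D) fun n => hfD _] with x hx
  have h5 := hx.const_mul (D : ℂ)
  rw [mul_zero] at h5
  refine h5.congr fun N => ?_
  rw [← bxc_mul]
  congr 1
  funext n
  have hDc : (D : ℂ) ≠ 0 := by exact_mod_cast hD0.ne'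
  push_cast
  field_simp

end

end Run7.h694.BT
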